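import Pool.Agent.Lib.MP_9f2731_nt.GP.Ap.Spec

/-!
MP_9f2731_nt, THEOREM GP, chapter Ap, module ApZ: the interface ApStmt of GP/Defs.
-/

namespace Pool.Agent.Lib.MP_9f2731_nt.GP.Ap

open Finset Pool.Agent.Lib.BV

open Pool.Agent.Lib.MP_9f2731_nt.GP (Wp Sm)

/-- Euler's function of W m, when all prime factors of m divide W. -/
private theorem ApZ_tot (w m : ℕ) (hm : Sm w m) : (Wp w * m).totient = m * (Wp w).totient := by
  have hW : Wp w ≠ 0 := primorial_ne_zero w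
  have hm0 : m ≠ 0 := by
    have := hm.1
    omega
  have h1 : (Wp w * m).primeFactors = (Wp w).primeFactors := by
    rw [Nat.primeFactors_mul hW hm0]
    apply Finset.union_eq_left.mpr
    intro p hp
    have hp1 := Nat.prime_of_mem_primeFactors hp
    have hp2 := Nat.dvd_of_mem_primeFactors hp
    exact Nat.mem_primeFactors.mpr ⟨hp1, hp1.dvd_primorial_iff.mpr (hm.2 p hp1 hp2), hW⟩
  have h2 := Nat.totient_eq_mul_prod_factors (Wp w * m)
  have h3 := Nat.totient_eq_mul_prod_factors (Wp w)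
  rw [h1] at h2
  have h4 : ((Wp w * m).totient : ℚ) = ((m * (Wp w).totient : ℕ) : ℚ) := by
    rw [h2]
    push_cast
    rw [h3]
    ring
  exact_mod_cast h4

/-- The primes 1 modulo q up to q X + 1. -/
private theorem ApZ_card (X q : ℕ) (W m : ℕ) (hq : q = W * m) (hq1 : 1 ≤ q) :
    ((Icc 1 (q * X + 1)).filter (fun p => p.Prime ∧ p ≡ 1 [MOD q])).card ≤
      ((Icc 1 X).filter (fun b => (W * b * m + 1).Prime)).card := by
  refine (Finset.card_le_card ?_).trans
    (Finset.card_image_le (s := (Icc 1 X).filter (fun b => (W * b * m + 1).Prime))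
      (f := fun b => q * b + 1))
  intro p hp
  obtain ⟨h1, h2, h3⟩ := Finset.mem_filter.mp hp
  obtain ⟨h4, h5⟩ := Finset.mem_Icc.mp h1
  have h6 : 1 < p := h2.one_lt
  have h7 : q ∣ p - 1 := (Nat.modEq_iff_dvd' h6.le).mp h3.symm
  obtain ⟨b, hb⟩ := h7
  have h8 : p = q * b + 1 := by omega
  have hb1 : 1 ≤ b := by
    rcases Nat.eq_zero_or_pos b with h | h
    · rw [h, mul_zero] at h8
      omega
    · exact h
  have hbX : b ≤ X := by
    have : q * b ≤ q * X := by omega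
    exact Nat.le_of_mul_le_mul_left this hq1
  refine Finset.mem_image.mpr ⟨b, Finset.mem_filter.mpr ⟨Finset.mem_Icc.mpr ⟨hb1, hbX⟩, ?_⟩,
    h8.symm⟩
  have h9 : W * b * m + 1 = p := by
    rw [h8, hq]
    ring
  rw [h9]
  exact h2

/-- The comparison of the powers of the logarithm. -/
private theorem ApZ_pow {c L : ℝ} (hc : 0 ≤ c) (hL : (1 + c) ^ (400 : ℝ) ≤ L) :
    c + L ^ ((1 : ℝ) / 100) ≤ L ^ ((1 : ℝ) / 80) := by
  have hc1 : 1 ≤ 1 + c := by linarith
  have hL1 : 1 ≤ L := (Real.one_le_rpow hc1 (by norm_num)).trans hL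
  have hL0 : 0 ≤ L := by linarith
  obtain ⟨t, ht⟩ : ∃ t : ℝ, t = L ^ ((1 : ℝ) / 400) := ⟨_, rfl⟩
  have ht0 : 1 + c ≤ t := by
    have h1 := Real.rpow_le_rpow (by positivity) hL (show (0 : ℝ) ≤ 1 / 400 by norm_num)
    rw [← ht, ← Real.rpow_mul (by linarith)] at h1
    norm_num at h1
    exact h1
  have h4 : L ^ ((1 : ℝ) / 100) = t ^ 4 := by
    rw [ht, ← Real.rpow_natCast, ← Real.rpow_mul hL0]
    norm_num
  have h5 : L ^ ((1 : ℝ) / 80) = t ^ 5 := by
    rw [ht, ← Real.rpow_natCast, ← Real.rpow_mul hL0]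
    norm_num
  rw [h4, h5]
  have h6 : 1 ≤ t ^ 4 := one_le_pow₀ (hc1.trans ht0)
  have h7 : t ^ 5 = t * t ^ 4 := by ring
  have h8 : (1 + c) * t ^ 4 ≤ t * t ^ 4 := mul_le_mul_of_nonneg_right ht0 (by linarith)
  have h9 : c * 1 ≤ c * t ^ 4 := mul_le_mul_of_nonneg_left h6 hc
  rw [h7]
  linarith

theorem tApZ : ApZStmt := by
  intro h
  refine ⟨1 / 100, by norm_num, fun w hw => ?_⟩
  have hWpos : 0 < Wp w := primorial_pos w
  obtain ⟨x0, hx0⟩ := h ((range (w + 1)).filter Nat.Prime)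
  obtain ⟨c, hc⟩ : ∃ c : ℝ, c = Real.log (2 * (Wp w : ℝ)) := ⟨_, rfl⟩
  have hW1 : (1 : ℝ) ≤ (Wp w : ℝ) := by exact_mod_cast hWpos
  have hc0 : 0 ≤ c := by rw [hc]; exact Real.log_nonneg (by linarith)
  obtain ⟨K, hK⟩ : ∃ K : ℝ, K = (1 + c) ^ (400 : ℝ) := ⟨_, rfl⟩
  have hK1 : 1 ≤ K := by rw [hK]; exact Real.one_le_rpow (by linarith) (by norm_num)
  refine ⟨max x0 (Real.exp K), fun X hX m hm hlm => ?_⟩
  have hX1 : x0 ≤ X := (le_max_left _ _).trans hX
  have hX2 : Real.exp K ≤ X := (le_max_right _ _).trans hX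
  have hX0 : (0 : ℝ) < X := (Real.exp_pos _).trans_le hX2
  obtain ⟨L, hL⟩ : ∃ L : ℝ, L = Real.log X := ⟨_, rfl⟩
  have hLc : K ≤ L := by
    rw [hL, Real.le_log_iff_exp_le hX0]
    exact hX2
  have hL1 : 1 ≤ L := hK1.trans hLc
  have hpow := ApZ_pow (L := L) hc0 (by rw [← hK]; exact hLc)
  have hm1 : (1 : ℝ) ≤ (m : ℝ) := by exact_mod_cast hm.1
  obtain ⟨q, hq⟩ : ∃ q : ℕ, q = Wp w * m := ⟨_, rfl⟩
  have hq1 : 1 ≤ q := by rw [hq]; exact Nat.mul_pos hWpos hm.1
  have hqr : (q : ℝ) = (Wp w : ℝ) * m := by rw [hq]; push_cast; ring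
  have hqr1 : (1 : ℝ) ≤ (q : ℝ) := by exact_mod_cast hq1
  obtain ⟨x, hx⟩ : ∃ x : ℝ, x = ((q * X + 1 : ℕ) : ℝ) := ⟨_, rfl⟩
  have hx' : x = q * X + 1 := by rw [hx]; push_cast; ring
  have hXx : (X : ℝ) ≤ x := by
    have h1 := mul_le_mul_of_nonneg_right hqr1 hX0.le
    rw [hx']
    linarith
  have hSm : SmF ((range (w + 1)).filter Nat.Prime) q := by
    intro p hp hpq
    rw [Finset.mem_filter, Finset.mem_range]
    refine ⟨?_, hp⟩
    rw [hq] at hpq
    rcases hp.dvd_mul.mp hpq with h1 | h1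
    · have := hp.dvd_primorial_iff.mp h1
      omega
    · have := hm.2 p hp h1
      omega
  have hlq : Real.log q ≤ c + L ^ ((1 : ℝ) / 100) := by
    rw [hqr, Real.log_mul (by positivity) (by positivity)]
    have h1 : Real.log (Wp w : ℝ) ≤ c := by
      rw [hc]
      exact Real.log_le_log (by linarith) (by linarith)
    rw [hL]
    linarith
  have hLx : L ≤ Real.log x := by rw [hL]; exact Real.log_le_log hX0 hXx
  have hlq2 : Real.log q ≤ (Real.log x) ^ ((1 : ℝ) / 80) :=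
    (hlq.trans hpow).trans (Real.rpow_le_rpow (by linarith) hLx (by norm_num))
  have h1 := hx0 x q (hX1.trans hXx) hq1 hSm hlq2
  have hfl : ⌊x⌋₊ = q * X + 1 := by rw [hx, Nat.floor_natCast]
  rw [hfl] at h1
  have h2 := ApZ_card X q (Wp w) m hq hq1
  have h3 : (((Icc 1 (q * X + 1)).filter (fun p => p.Prime ∧ p ≡ 1 [MOD q])).card : ℝ) ≤
      (((Icc 1 X).filter (fun b => (Wp w * b * m + 1).Prime)).card : ℝ) := by exact_mod_cast h2
  refine le_trans ?_ (h1.trans h3)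
  have htot : (q.totient : ℝ) = (m : ℝ) * ((Wp w).totient : ℝ) := by
    rw [hq, ApZ_tot w m hm]
    push_cast
    ring
  have hφ : (0 : ℝ) < ((Wp w).totient : ℝ) := by exact_mod_cast Nat.totient_pos.mpr hWpos
  have hlx : Real.log x ≤ 2 * L := by
    have h4 : x ≤ (2 * (Wp w : ℝ)) * m * X := by
      rw [hx', hqr]
      have h5 : 1 ≤ (Wp w : ℝ) * m * X := by
        have hX3 : (1 : ℝ) ≤ X := by
          have : (1 : ℝ) ≤ Real.exp K := Real.one_le_exp (by linarith)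
          linarith
        have h6 : 1 ≤ (Wp w : ℝ) * m := one_le_mul_of_one_le_of_one_le hW1 hm1
        exact one_le_mul_of_one_le_of_one_le h6 hX3
      linarith
    have h5 : Real.log x ≤ Real.log ((2 * (Wp w : ℝ)) * m * X) :=
      Real.log_le_log (by linarith) h4
    rw [Real.log_mul (by positivity) (by positivity), Real.log_mul (by positivity) (by positivity),
      ← hc, ← hL] at h5
    have h6 : L ^ ((1 : ℝ) / 80) ≤ L := by
      calc L ^ ((1 : ℝ) / 80) ≤ L ^ (1 : ℝ) :=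
            Real.rpow_le_rpow_of_exponent_le hL1 (by norm_num)
        _ = L := Real.rpow_one L
    rw [← hL] at hlm
    linarith
  have hlx0 : 0 < Real.log x := by linarith
  rw [← hL, htot]
  have hmφ : 0 < 2 * ((m : ℝ) * ((Wp w).totient : ℝ)) := by positivity
  have hWmX : 0 ≤ (Wp w : ℝ) * m * X := by positivity
  have hL0 : 0 < L := by linarith
  calc (1 / 4 : ℝ) * (((Wp w : ℝ) / (Wp w).totient) * X / L) =
        ((Wp w : ℝ) * m * X) / (2 * ((m : ℝ) * ((Wp w).totient : ℝ)) * (2 * L)) := by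
        field_simp
        ring
    _ ≤ ((Wp w : ℝ) * m * X) / (2 * ((m : ℝ) * ((Wp w).totient : ℝ)) * Real.log x) :=
        div_le_div_of_nonneg_left hWmX (mul_pos hmφ hlx0)
          (mul_le_mul_of_nonneg_left hlx hmφ.le)
    _ ≤ x / (2 * ((m : ℝ) * ((Wp w).totient : ℝ)) * Real.log x) := by
        apply div_le_div_of_nonneg_right _ (mul_pos hmφ hlx0).le
        rw [hx', hqr]
        linarith

end Pool.Agent.Lib.MP_9f2731_nt.GP.Ap
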