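import Pool.Agent.Lib.MP_9f2731_nt.GP.Ap.Spec

namespace Pool.Agent.Lib.MP_9f2731_nt.GP.Ap

open Finset Pool.Agent.Lib.BV

theorem FkP_ne_one {q : ℕ} {χ : DirichletCharacter ℂ q} (hq : 2 ≤ q) (h : χ.IsPrimitive) :
    χ ≠ 1 := by
  rintro rfl
  have hq0 : NeZero q := ⟨by omega⟩
  rw [DirichletCharacter.isPrimitive_def, DirichletCharacter.conductor_one] at h
  omega

theorem FkP_ell {q : ℕ} (hq : 2 ≤ q) (t : ℝ) : 1 ≤ ell q t := by
  have hqr : (2 : ℝ) ≤ q := by exact_mod_cast hq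
  have ht : (2 : ℝ) ≤ |t| + 2 := by have := abs_nonneg t; linarith
  have h4 : (4 : ℝ) ≤ q * (|t| + 2) := by nlinarith
  have h5 : Real.exp 1 ≤ q * (|t| + 2) := by
    have := Real.exp_one_lt_d9
    linarith
  have h6 := Real.log_le_log (Real.exp_pos 1) h5
  rw [Real.log_exp] at h6
  exact h6

theorem tFkP (h1 : SeEStmt) (h2 : Pool.Agent.Lib.BV.ChbStmt) (h3 : LoPStmt) (h4 : ReEStmt) :
    FkPStmt := by
  intro S
  obtain ⟨c0, hc0, hLo⟩ := h3 S
  obtain ⟨c, hcdef⟩ : ∃ c, c = min c0 1 := ⟨_, rfl⟩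
  have hc : 0 < c := by rw [hcdef]; exact lt_min hc0 one_pos
  have hc1 : c ≤ 1 := by rw [hcdef]; exact min_le_right _ _
  have hcc : c ≤ c0 := by rw [hcdef]; exact min_le_left _ _
  have hci : 1 ≤ 1 / c := by
    rw [le_div_iff₀ hc]; linarith
  refine ⟨6400 / c, ?_, fun j q χ s hq hS hχ hs1 hs2 => ?_⟩
  · rw [le_div_iff₀ hc]; linarith
  have hqr : (2 : ℝ) ≤ q := by exact_mod_cast hq
  have hbps : BPS (chf χ) q := h2.1 q χ (by omega) (FkP_ne_one hq hχ)
  have hL1 := FkP_ell hq s.im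
  have hlow := hLo q χ s hq hS hχ hs1 hs2
  obtain ⟨L, hL⟩ : ∃ L, L = ell q s.im := ⟨_, rfl⟩
  rw [← hL] at hL1 hlow
  obtain ⟨D0, hD0⟩ : ∃ D0, D0 = ‖DS (chf χ) 0 s‖ := ⟨_, rfl⟩
  rw [← hD0] at hlow
  have hD0n : 0 ≤ D0 := by rw [hD0]; exact norm_nonneg _
  have hL0 : 0 ≤ L := by linarith
  have hV : (0 : ℝ) ≤ 1600 / c * L ^ 11 := by positivity
  have hmain := h4 j q χ s (1600 / c * L ^ 11) (by omega) hs1 hV (by
    intro m hm1 hm2
    have hm := h1 m (chf χ) q s hqr hbps hs1 hs2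
    rw [← hL] at hm
    rw [← hD0]
    refine hm.trans ?_
    rw [mul_assoc]
    apply mul_le_mul_of_nonneg_left _ (Nat.cast_nonneg _)
    have e1 : (1 : ℝ) ≤ (1 / c) * (D0 * L ^ 9) := by
      rw [one_div, ← div_eq_inv_mul, le_div_iff₀ hc]
      linarith
    have e2 : (40 : ℝ) ^ (m + 1) ≤ 1600 ^ m := by
      have : (1600 : ℝ) ^ m = 40 ^ (2 * m) := by
        rw [pow_mul]; norm_num
      rw [this]
      exact pow_le_pow_right₀ (by norm_num) (by omega)
    have e3 : (1 / c) ≤ (1 / c) ^ m := by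
      calc (1 / c) = (1 / c) ^ 1 := (pow_one _).symm
        _ ≤ (1 / c) ^ m := pow_le_pow_right₀ hci hm1
    have e4 : L ^ (m + 10) ≤ (L ^ 11) ^ m := by
      rw [← pow_mul]
      exact pow_le_pow_right₀ hL1 (by omega)
    calc (40 * L) ^ (m + 1) = 40 ^ (m + 1) * L ^ (m + 1) * 1 := by rw [mul_pow, mul_one]
      _ ≤ 40 ^ (m + 1) * L ^ (m + 1) * ((1 / c) * (D0 * L ^ 9)) := by
          apply mul_le_mul_of_nonneg_left e1
          positivity
      _ = 40 ^ (m + 1) * (1 / c) * L ^ (m + 10) * D0 := by ring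
      _ ≤ 1600 ^ m * (1 / c) ^ m * (L ^ 11) ^ m * D0 := by
          apply mul_le_mul_of_nonneg_right _ hD0n
          apply mul_le_mul _ e4 (by positivity) (by positivity)
          exact mul_le_mul e2 e3 (by positivity) (by positivity)
      _ = (1600 / c * L ^ 11) ^ m * D0 := by
          rw [← mul_pow, ← mul_pow]
          congr 2
          ring)
  refine hmain.trans (le_of_eq ?_)
  rw [← hL]
  congr 2
  ring

end Pool.Agent.Lib.MP_9f2731_nt.GP.Ap
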