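import Pool.Agent.Lib.MP_9f2731_nt.GP.Ap.Spec

/-!
MP_9f2731_nt, GP/Ap/LoP: lower bound without Siegel factor (helper37)
-/

namespace Pool.Agent.Lib.MP_9f2731_nt.GP.Ap

open Finset Pool.Agent.Lib.BV

private lemma LoP_one_le_ell (q : ℕ) (t : ℝ) (hq : 2 ≤ q) : 1 ≤ ell q t := by
  unfold ell
  have h1 : (2 : ℝ) ≤ q := by exact_mod_cast hq
  have h2 : 0 ≤ |t| := abs_nonneg t
  have h3 : (4 : ℝ) ≤ q * (|t| + 2) := by nlinarith
  rw [Real.le_log_iff_exp_le (by linarith)]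
  have := Real.exp_one_lt_d9
  linarith

private lemma LoP_prod (S : Finset ℕ) (q : ℕ) (hS : SmF S q) :
    ∏ p ∈ q.primeFactors, p ≤ ∏ p ∈ S, max 1 p := by
  have hsub : q.primeFactors ⊆ S := fun p hp =>
    hS p (Nat.prime_of_mem_primeFactors hp) (Nat.dvd_of_mem_primeFactors hp)
  calc ∏ p ∈ q.primeFactors, p ≤ ∏ p ∈ q.primeFactors, max 1 p :=
        Finset.prod_le_prod' fun p _ => le_max_right 1 p
    _ ≤ ∏ p ∈ S, max 1 p :=
        Finset.prod_le_prod_of_subset_of_one_le' hsub fun p _ _ => le_max_left 1 p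

theorem tLoP (h1 : Pool.Agent.Lib.BV.Lo1Stmt) (h2 : Pool.Agent.Lib.BV.LoFStmt) (h3 : RlCStmt) :
    LoPStmt := by
  intro S
  obtain ⟨c1, hc1, k1⟩ := h1
  obtain ⟨c2, hc2, k2⟩ := h2 1 one_pos
  obtain ⟨Q, hQ⟩ : ∃ Q : ℕ, Q = 8 * ∏ p ∈ S, max 1 p := ⟨_, rfl⟩
  have hQ1 : 1 ≤ Q := by
    have : 0 < ∏ p ∈ S, max 1 p :=
      Finset.prod_pos fun p _ => lt_of_lt_of_le one_pos (le_max_left 1 p)
    omega
  have hQR : (1 : ℝ) ≤ Q := by exact_mod_cast hQ1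
  have hQ0 : (0 : ℝ) < Q := by linarith
  refine ⟨min c1 (c2 / Q), lt_min hc1 (div_pos hc2 hQ0), ?_⟩
  intro q χ s hq hS hχ hs1 hs2
  have he : 1 ≤ ell q s.im := LoP_one_le_ell q s.im hq
  have hD : 0 ≤ ‖DS (chf χ) 0 s‖ := norm_nonneg _
  by_cases hsq : χ ^ 2 = 1
  · refine (min_le_right _ _).trans ?_
    have hqQ : (q : ℝ) ≤ Q := by
      have := h3 q χ (by omega) hχ hsq
      have h4 := LoP_prod S q hS
      have h5 : q ≤ Q := by omega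
      exact_mod_cast h5
    have k := k2 q χ s hq hχ hs1 hs2
    rw [Real.rpow_one] at k
    rw [div_le_iff₀ hQ0]
    have he9 : 0 ≤ ell q s.im ^ 9 := by positivity
    calc c2 ≤ ‖DS (chf χ) 0 s‖ * q * ell q s.im ^ 9 := k
      _ ≤ ‖DS (chf χ) 0 s‖ * Q * ell q s.im ^ 9 := by gcongr
      _ = ‖DS (chf χ) 0 s‖ * ell q s.im ^ 9 * Q := by ring
  · refine (min_le_left _ _).trans ((k1 q χ s hq hsq hs1 hs2).trans ?_)
    have : ell q s.im ^ 7 ≤ ell q s.im ^ 9 := pow_le_pow_right₀ he (by norm_num)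
    gcongr

end Pool.Agent.Lib.MP_9f2731_nt.GP.Ap
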