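import Pool.Agent.Lib.MP_9f2731_nt.GP.Ap.Spec

/-!
MP_9f2731_nt, GP/Ap/ReE: recursion for the logarithmic derivatives, explicit constants.
-/

namespace Pool.Agent.Lib.MP_9f2731_nt.GP.Ap

open Finset Pool.Agent.Lib.BV

private theorem ReE_DS0 {q : ℕ} (χ : DirichletCharacter ℂ q) (s : ℂ) (hs : 1 < s.re) :
    0 < ‖DS (chf χ) 0 s‖ := by
  have h : DS (chf χ) 0 s = LSeries (fun n : ℕ => χ (n : ZMod q)) s := by
    unfold DS
    apply LSeries_congr
    intro n hn
    simp [chf]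
  rw [h, norm_pos_iff]
  exact DirichletCharacter.LSeries_ne_zero_of_one_lt_re χ hs

private theorem ReE_sum (j : ℕ) :
    ((j : ℝ) + 1) + ∑ i ∈ range j, (4 : ℝ) ^ (i + 1) ≤ 4 ^ (j + 1) := by
  induction j with
  | zero => norm_num
  | succ j ih =>
    rw [sum_range_succ]
    push_cast
    have h1 : (1 : ℝ) ≤ 4 ^ (j + 1) := one_le_pow₀ (by norm_num)
    have h2 : (4 : ℝ) ^ (j + 1 + 1) = 4 * 4 ^ (j + 1) := by ring
    rw [h2]
    linarith

theorem tReE (h : IdrStmt) : ReEStmt := by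
  intro j
  induction j using Nat.strong_induction_on with
  | _ j ih =>
    intro q χ s V hq hs hV hD
    have hpos := ReE_DS0 χ s hs
    have hid := h q χ j s hq hs
    rw [sum_range_succ, Nat.choose_self, Nat.cast_one, one_mul, Nat.sub_self] at hid
    have hLS : LS (chf χ) j s * DS (chf χ) 0 s = DS (chf χ) (j + 1) s -
        ∑ i ∈ range j, (j.choose i : ℂ) * (LS (chf χ) i s * DS (chf χ) (j - i) s) := by
      rw [hid]; ring
    have h1 : ‖LS (chf χ) j s‖ * ‖DS (chf χ) 0 s‖ ≤ ‖DS (chf χ) (j + 1) s‖ +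
        ∑ i ∈ range j, (j.choose i : ℝ) * (‖LS (chf χ) i s‖ * ‖DS (chf χ) (j - i) s‖) := by
      rw [← norm_mul, hLS]
      refine (norm_sub_le _ _).trans (add_le_add le_rfl ?_)
      refine (norm_sum_le _ _).trans (sum_le_sum fun i _ => ?_)
      rw [norm_mul, norm_mul, Complex.norm_natCast]
    have h2 : ‖DS (chf χ) (j + 1) s‖ ≤
        (j.factorial : ℝ) * ((j : ℝ) + 1) * V ^ (j + 1) * ‖DS (chf χ) 0 s‖ := by
      refine (hD (j + 1) (by omega) le_rfl).trans (le_of_eq ?_)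
      rw [Nat.factorial_succ]
      push_cast
      ring
    have h3 : ∀ i ∈ range j, (j.choose i : ℝ) * (‖LS (chf χ) i s‖ * ‖DS (chf χ) (j - i) s‖) ≤
        (j.factorial : ℝ) * (4 : ℝ) ^ (i + 1) * (V ^ (j + 1) * ‖DS (chf χ) 0 s‖) := by
      intro i hi
      have hij : i < j := mem_range.mp hi
      have e1 : ‖LS (chf χ) i s‖ ≤ (i.factorial : ℝ) * (4 * V) ^ (i + 1) :=
        ih i hij q χ s V hq hs hV fun m hm1 hm2 => hD m hm1 (by omega)
      have e2 : ‖DS (chf χ) (j - i) s‖ ≤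
          ((j - i).factorial : ℝ) * V ^ (j - i) * ‖DS (chf χ) 0 s‖ :=
        hD (j - i) (by omega) (by omega)
      have e3 : V ^ (j + 1) = V ^ (i + 1) * V ^ (j - i) := by
        rw [← pow_add]; congr 1; omega
      have e4 : ‖LS (chf χ) i s‖ * ‖DS (chf χ) (j - i) s‖ ≤
          ((i.factorial : ℝ) * (4 * V) ^ (i + 1)) *
            (((j - i).factorial : ℝ) * V ^ (j - i) * ‖DS (chf χ) 0 s‖) :=
        mul_le_mul e1 e2 (norm_nonneg _) ((norm_nonneg _).trans e1)
      have e5 : (j.choose i : ℝ) * (i.factorial : ℝ) * ((j - i).factorial : ℝ) =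
          (j.factorial : ℝ) := by
        exact_mod_cast Nat.choose_mul_factorial_mul_factorial hij.le
      calc (j.choose i : ℝ) * (‖LS (chf χ) i s‖ * ‖DS (chf χ) (j - i) s‖)
          ≤ (j.choose i : ℝ) *
            (((i.factorial : ℝ) * (4 * V) ^ (i + 1)) *
              (((j - i).factorial : ℝ) * V ^ (j - i) * ‖DS (chf χ) 0 s‖)) :=
            mul_le_mul_of_nonneg_left e4 (Nat.cast_nonneg _)
        _ = ((j.choose i : ℝ) * (i.factorial : ℝ) * ((j - i).factorial : ℝ)) *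
              (4 : ℝ) ^ (i + 1) * (V ^ (j + 1) * ‖DS (chf χ) 0 s‖) := by
            rw [e3, mul_pow]; ring
        _ = _ := by rw [e5]
    have h4 : ‖LS (chf χ) j s‖ * ‖DS (chf χ) 0 s‖ ≤
        (j.factorial : ℝ) * (((j : ℝ) + 1) + ∑ i ∈ range j, (4 : ℝ) ^ (i + 1)) * V ^ (j + 1) *
          ‖DS (chf χ) 0 s‖ := by
      refine h1.trans ((add_le_add h2 (sum_le_sum h3)).trans (le_of_eq ?_))
      rw [← sum_mul, ← mul_sum]; ring
    have h5 : ‖LS (chf χ) j s‖ ≤
        (j.factorial : ℝ) * (((j : ℝ) + 1) + ∑ i ∈ range j, (4 : ℝ) ^ (i + 1)) * V ^ (j + 1) :=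
      le_of_mul_le_mul_right h4 hpos
    refine h5.trans ?_
    rw [mul_pow, ← mul_assoc]
    exact mul_le_mul_of_nonneg_right
      (mul_le_mul_of_nonneg_left (ReE_sum j) (Nat.cast_nonneg _)) (pow_nonneg hV _)

end Pool.Agent.Lib.MP_9f2731_nt.GP.Ap
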