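import Pool.Agent.Lib.MP_9f2731_nt.GP.Ap.Spec

/-!
MP_9f2731_nt, GP/Ap/RlC: the conductor of a primitive real character.
-/

namespace Pool.Agent.Lib.MP_9f2731_nt.GP.Ap

open Finset Pool.Agent.Lib.BV

private theorem RlC_pow {R : Type*} [CommRing R] (x : R) (hx : x ^ 2 = 0) (n : ℕ) :
    (1 + x) ^ n = 1 + n * x := by
  induction n with
  | zero => simp
  | succ n ih =>
    rw [pow_succ, ih]
    push_cast
    linear_combination (n : R) * hx

/-- A primitive character has a unit congruent to one modulo a proper divisor where it is not one. -/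
private theorem RlC_prim {q : ℕ} (χ : DirichletCharacter ℂ q) (hq : 1 ≤ q) (hχ : χ.IsPrimitive)
    (d : ℕ) (hd : d ∣ q) (hdq : d < q)
    (h : ∀ (u : (ZMod q)ˣ) (k : ZMod q), (u : ZMod q) = 1 + (d : ZMod q) * k → χ (u : ZMod q) = 1) :
    False := by
  haveI : NeZero q := ⟨by omega⟩
  have h1 : χ.FactorsThrough d := by
    rw [DirichletCharacter.factorsThrough_iff_ker_unitsMap (hd := hd)]
    intro u hu
    rw [MonoidHom.mem_ker] at hu ⊢
    have h2 : ((u : ZMod q).cast : ZMod d) = 1 := by
      have := congrArg (fun v : (ZMod d)ˣ => (v : ZMod d)) hu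
      simpa [ZMod.unitsMap_val] using this
    have h3 : ∃ k : ZMod q, (u : ZMod q) = 1 + (d : ZMod q) * k := by
      obtain ⟨a, ha⟩ := ZMod.natCast_zmod_surjective (u : ZMod q)
      have h4 : ((a : ZMod d)) = 1 := by
        rw [← ha] at h2
        rwa [ZMod.cast_natCast hd] at h2
      have h5 : ((a : ℤ) : ZMod d) = ((1 : ℤ) : ZMod d) := by simpa using h4
      rw [ZMod.intCast_eq_intCast_iff_dvd_sub] at h5
      obtain ⟨k, hk⟩ := h5
      refine ⟨((-k : ℤ) : ZMod q), ?_⟩
      rw [← ha]
      have h6 : (a : ℤ) = 1 + d * (-k) := by linarith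
      have h7 := congrArg (fun z : ℤ => (z : ZMod q)) h6
      push_cast at h7
      push_cast
      exact h7
    obtain ⟨k, hk⟩ := h3
    have h8 := h u k hk
    apply Units.ext
    rw [MulChar.coe_toUnitHom]
    simpa using h8
  have h2 : χ.conductor ≤ d := by
    have : d ∈ χ.conductorSet := h1
    exact DirichletCharacter.conductor_le_conductor_mem_conductorSet this |>.trans (by
      first
        | exact Nat.le_refl _
        | exact Nat.le_of_dvd (Nat.pos_of_dvd_of_pos hd (by omega)) (DirichletCharacter.conductor_dvd_level _))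
  have h3 : χ.conductor = q := hχ
  omega

theorem tRlC : RlCStmt := by
  intro q χ hq hχ h2
  haveI : NeZero q := ⟨by omega⟩
  have hsq : ∀ a : (ZMod q), IsUnit a → χ a ^ 2 = 1 := by
    intro a ha
    obtain ⟨v, rfl⟩ := ha
    rw [← MulChar.pow_apply_coe χ 2 v, h2, MulChar.one_apply_coe]
  -- odd primes
  have hodd : ∀ p : ℕ, p.Prime → p ≠ 2 → ¬ p ^ 2 ∣ q := by
    intro p hp hp2 hdvd
    have hpq : p ∣ q := (dvd_pow_self p (by norm_num)).trans hdvd
    obtain ⟨m, hm⟩ := hdvd
    have hm0 : 0 < m := by
      rcases Nat.eq_zero_or_pos m with h | h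
      · rw [h, mul_zero] at hm; omega
      · exact h
    have hd : p * m ∣ q := ⟨p, by rw [hm]; ring⟩
    refine RlC_prim χ hq hχ (p * m) hd ?_ ?_
    · rw [hm]
      have := hp.two_le
      nlinarith [Nat.mul_pos hp.pos hm0]
    · intro u k hu
      have hqz : ((p : ZMod q)) ^ 2 * (m : ZMod q) = 0 := by
        have : ((p ^ 2 * m : ℕ) : ZMod q) = 0 := by rw [← hm]; exact ZMod.natCast_self q
        push_cast at this
        exact this
      have hx2 : (((p * m : ℕ) : ZMod q) * k) ^ 2 = 0 := by
        push_cast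
        linear_combination (m : ZMod q) * k ^ 2 * hqz
      have hup : (u : ZMod q) ^ p = 1 := by
        rw [hu, RlC_pow _ hx2 p]
        push_cast
        linear_combination k * hqz
      have h5 : χ (u : ZMod q) ^ p = 1 := by
        rw [← map_pow, hup, map_one]
      have h6 := hsq (u : ZMod q) u.isUnit
      obtain ⟨r, hr⟩ := hp.odd_of_ne_two hp2
      rw [hr, pow_succ, pow_mul, h6, one_pow, one_mul] at h5
      exact h5
  have htwo : ¬ 16 ∣ q := by
    rintro ⟨m, hm⟩
    have hm0 : 0 < m := by omega
    have hd : 8 * m ∣ q := ⟨2, by rw [hm]; ring⟩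
    refine RlC_prim χ hq hχ (8 * m) hd (by omega) ?_
    intro u k hu
    have hqz : (16 : ZMod q) * (m : ZMod q) = 0 := by
      have : ((16 * m : ℕ) : ZMod q) = 0 := by rw [← hm]; exact ZMod.natCast_self q
      push_cast at this
      exact this
    have hy : (u : ZMod q) = (1 + 4 * (m : ZMod q) * k) ^ 2 := by
      rw [hu]
      push_cast
      linear_combination -((m : ZMod q) * k ^ 2) * hqz
    have hyu : IsUnit (1 + 4 * (m : ZMod q) * k) := by
      have h7 : IsUnit ((1 + 4 * (m : ZMod q) * k) ^ 2) := by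
        rw [← hy]; exact u.isUnit
      exact (isUnit_pow_iff (by norm_num)).1 h7
    rw [hy, map_pow]
    exact hsq _ hyu
  -- the product
  have hprod : q = ∏ p ∈ q.primeFactors, p ^ (q.factorization p) := by
    conv_lhs => rw [← Nat.prod_factorization_pow_eq_self (n := q) (by omega)]
    rw [Finsupp.prod, Nat.support_factorization]
  have hle : ∏ p ∈ q.primeFactors, p ^ (q.factorization p) ≤
      ∏ p ∈ q.primeFactors, (p * (if p = 2 then 4 else 1)) := by
    refine Finset.prod_le_prod' fun p hp => ?_
    have hpp := Nat.prime_of_mem_primeFactors hp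
    by_cases h : p = 2
    · rw [if_pos h, h]
      have h3 : q.factorization 2 ≤ 3 := by
        by_contra hcon
        apply htwo
        have : 2 ^ 4 ∣ q := by
          rw [Nat.prime_two.pow_dvd_iff_le_factorization (by omega)]
          omega
        simpa using this
      calc 2 ^ (q.factorization 2) ≤ 2 ^ 3 := Nat.pow_le_pow_right (by norm_num) h3
        _ = 2 * 4 := by norm_num
    · rw [if_neg h, mul_one]
      have h3 : q.factorization p ≤ 1 := by
        by_contra hcon
        apply hodd p hpp h
        rw [hpp.pow_dvd_iff_le_factorization (by omega)]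
        omega
      calc p ^ (q.factorization p) ≤ p ^ 1 := Nat.pow_le_pow_right hpp.pos h3
        _ = p := pow_one p
  rw [Finset.prod_mul_distrib, Finset.prod_ite_eq'] at hle
  calc q = ∏ p ∈ q.primeFactors, p ^ (q.factorization p) := hprod
    _ ≤ (∏ p ∈ q.primeFactors, p) * (if 2 ∈ q.primeFactors then 4 else 1) := hle
    _ ≤ (∏ p ∈ q.primeFactors, p) * 8 := by
        apply Nat.mul_le_mul_left
        split_ifs <;> norm_num
    _ = 8 * ∏ p ∈ q.primeFactors, p := by ring

end Pool.Agent.Lib.MP_9f2731_nt.GP.Ap
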