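import Pool.Agent.Lib.MP_9f2731_nt.GP.Ap.Spec

/-!
MP_9f2731_nt, THEOREM GP, chapter Ap, module SeE: Dirichlet series bound, explicit in j.
-/

namespace Pool.Agent.Lib.MP_9f2731_nt.GP.Ap

open Finset Pool.Agent.Lib.BV

/-- comparison of a power of 1 + v with the exponential -/
private theorem SeE_exp (j : ℕ) {v : ℝ} (hv : 0 ≤ v) :
    (1 + v) ^ j ≤ (j.factorial : ℝ) * Real.exp v := by
  have h1 := Real.sum_le_exp_of_nonneg hv (j + 1)
  have h2 : (1 + v) ^ j ≤ (j.factorial : ℝ) * ∑ i ∈ range (j + 1), v ^ i / (i.factorial : ℝ) := by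
    rw [add_comm, add_pow, Finset.mul_sum]
    apply Finset.sum_le_sum
    intro i hi
    have hi' : i ≤ j := by
      have := Finset.mem_range.mp hi
      omega
    have h3 : (j.choose i : ℝ) * (i.factorial : ℝ) ≤ (j.factorial : ℝ) := by
      have h4 := Nat.choose_mul_factorial_mul_factorial hi'
      have h5 : j.choose i * i.factorial ≤ j.factorial := by
        rw [← h4]
        exact Nat.le_mul_of_pos_right _ (Nat.factorial_pos _)
      exact_mod_cast h5
    have h6 : (0 : ℝ) < (i.factorial : ℝ) := by exact_mod_cast Nat.factorial_pos i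
    rw [one_pow, mul_one, mul_div_assoc', le_div_iff₀ h6]
    calc v ^ i * (j.choose i : ℝ) * (i.factorial : ℝ) =
          v ^ i * ((j.choose i : ℝ) * (i.factorial : ℝ)) := by ring
      _ ≤ v ^ i * (j.factorial : ℝ) := mul_le_mul_of_nonneg_left h3 (pow_nonneg hv i)
      _ = (j.factorial : ℝ) * v ^ i := by ring
  exact h2.trans (mul_le_mul_of_nonneg_left h1 (Nat.cast_nonneg _))

/-- growth of the power of the logarithm -/
private theorem SeE_pow (j : ℕ) {R x : ℝ} (hR : 1 ≤ R) (hx : R ≤ x) :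
    (Real.log x) ^ j ≤ (j.factorial : ℝ) * (2 + Real.log R) ^ j * (√x / √R) := by
  have hR0 : 0 < R := by linarith
  have hx0 : 0 < x := by linarith
  have hL : 0 ≤ Real.log R := Real.log_nonneg hR
  obtain ⟨v, hv⟩ : ∃ v : ℝ, v = (Real.log x - Real.log R) / 2 := ⟨_, rfl⟩
  have hv0 : 0 ≤ v := by
    have := Real.log_le_log hR0 hx
    rw [hv]
    linarith
  have h1 : Real.log x ≤ (2 + Real.log R) * (1 + v) := by
    have : 0 ≤ Real.log R * v := mul_nonneg hL hv0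
    have h2 : Real.log x = Real.log R + 2 * v := by rw [hv]; ring
    rw [h2]
    nlinarith
  have h3 : Real.exp v = √x / √R := by
    rw [← Real.sqrt_div hx0.le, hv, ← Real.log_div (ne_of_gt hx0) (ne_of_gt hR0), Real.sqrt_eq_rpow,
      Real.rpow_def_of_pos (by positivity)]
    ring_nf
  have hlx : 0 ≤ Real.log x := Real.log_nonneg (by linarith)
  calc (Real.log x) ^ j ≤ ((2 + Real.log R) * (1 + v)) ^ j := pow_le_pow_left₀ hlx h1 j
    _ = (2 + Real.log R) ^ j * (1 + v) ^ j := mul_pow _ _ _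
    _ ≤ (2 + Real.log R) ^ j * ((j.factorial : ℝ) * Real.exp v) :=
        mul_le_mul_of_nonneg_left (SeE_exp j hv0) (by positivity)
    _ = _ := by rw [h3]; ring

private theorem SeE_norm_gg (j : ℕ) (s : ℂ) (hs : 1 ≤ s.re) (n : ℕ) (hn : 1 ≤ n) :
    ‖gg j s (n : ℝ)‖ ≤ (Real.log n) ^ j / n := by
  have hn' : (1 : ℝ) ≤ n := by exact_mod_cast hn
  have h0 : (0 : ℝ) < n := by linarith
  have hL : 0 ≤ Real.log n := Real.log_nonneg hn'
  unfold gg
  rw [norm_mul, norm_pow, Complex.norm_real, Real.norm_of_nonneg hL,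
    Complex.norm_cpow_eq_rpow_re_of_pos h0, div_eq_mul_inv]
  apply mul_le_mul_of_nonneg_left _ (by positivity)
  rw [Complex.neg_re, ← Real.rpow_neg_one]
  exact Real.rpow_le_rpow_of_exponent_le hn' (by linarith)

private theorem SeE_partial (f : ℕ → ℂ) (j : ℕ) (s : ℂ) (M : ℕ) :
    ∑ n ∈ range (M + 1), LSeries.term (fun n => f n * ((Real.log n : ℝ) : ℂ) ^ j) s n =
      ∑ n ∈ Icc 1 M, f n * gg j s n := by
  induction M with
  | zero => simp
  | succ M ih =>
    rw [Finset.sum_range_succ, ih, Finset.sum_Icc_succ_top (by omega),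
      LSeries.term_of_ne_zero (Nat.succ_ne_zero M)]
    congr 1
    unfold gg
    rw [Complex.cpow_neg, div_eq_mul_inv, mul_assoc]
    push_cast
    rfl

private theorem SeE_abel (f g : ℕ → ℂ) (N k : ℕ) :
    ∑ n ∈ Icc 1 (N + k), f n * g n = ∑ n ∈ Icc 1 N, f n * g n +
      (∑ n ∈ Icc 1 (N + k), f n) * g (N + 1 + k) -
      (∑ n ∈ Icc 1 N, f n) * g (N + 1) -
      ∑ i ∈ range k, (∑ n ∈ Icc 1 (N + 1 + i), f n) * (g (N + 1 + i + 1) - g (N + 1 + i)) := by
  induction k with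
  | zero => simp
  | succ k ih =>
    have e1 : N + (k + 1) = N + k + 1 := by omega
    have e2 : N + 1 + k = N + k + 1 := by omega
    rw [e1, Finset.sum_Icc_succ_top (by omega), ih, Finset.sum_range_succ, e2,
      Finset.sum_Icc_succ_top (by omega)]
    have e3 : N + 1 + (k + 1) = N + k + 1 + 1 := by omega
    rw [e3]
    ring

theorem tSeE (h1 : TaEStmt) (h2 : GdEStmt) : SeEStmt := by
  intro j f Q s hQ hf hs1 hs2
  have hT := h1 j
  have hG := h2 j
  obtain ⟨C2, hC2⟩ : ∃ C2 : ℝ, C2 = 16 * (j.factorial : ℝ) := ⟨_, rfl⟩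
  obtain ⟨C1, hC1⟩ : ∃ C1 : ℝ, C1 = 2 * ((j : ℝ) + 1) := ⟨_, rfl⟩
  have hC20 : 0 ≤ C2 := by rw [hC2]; positivity
  have hC10 : 0 ≤ C1 := by rw [hC1]; positivity
  have hfac : (1 : ℝ) ≤ (j.factorial : ℝ) := by exact_mod_cast Nat.factorial_pos j
  obtain ⟨hf1, hf2⟩ := hf
  obtain ⟨X, hX⟩ : ∃ X : ℝ, X = Q * (|s.im| + 2) := ⟨_, rfl⟩
  have ht0 : 0 ≤ |s.im| := abs_nonneg _
  have hX4 : 4 ≤ X := by rw [hX]; nlinarith
  have hQX : Q ≤ X := by rw [hX]; nlinarith
  obtain ⟨E, hE⟩ : ∃ E : ℝ, E = Real.log X := ⟨_, rfl⟩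
  have hell : ell Q s.im = E := by
    unfold ell
    rw [hE, hX]
  have hE1 : 1 ≤ E := by
    have h3 : Real.log 4 ≤ Real.log X := Real.log_le_log (by norm_num) hX4
    have h4 : Real.log 4 = 2 * Real.log 2 := by
      rw [show (4 : ℝ) = 2 ^ 2 by norm_num, Real.log_pow]
      norm_num
    have h5 := Real.log_two_gt_d9
    rw [hE]
    linarith
  rw [hell]
  obtain ⟨N, hN⟩ : ∃ N : ℕ, N = ⌈X⌉₊ := ⟨_, rfl⟩
  have hXN : X ≤ N := by rw [hN]; exact Nat.le_ceil X
  have hNX : (N : ℝ) < X + 1 := by rw [hN]; exact Nat.ceil_lt_add_one (by linarith)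
  have hN1 : 1 ≤ N := by
    have : (1 : ℝ) ≤ N := by linarith
    exact_mod_cast this
  -- the logarithm
  obtain ⟨Y, hY⟩ : ∃ Y : ℝ, Y = Real.log ((N : ℝ) + 2) := ⟨_, rfl⟩
  have hY0 : 0 ≤ Y := by rw [hY]; exact Real.log_nonneg (by linarith)
  have hYE : Y ≤ 2 * E := by
    have h3 : Real.log ((N : ℝ) + 2) ≤ Real.log (X ^ 2) := by
      apply Real.log_le_log (by linarith)
      nlinarith
    rw [Real.log_pow] at h3
    rw [hY, hE]
    push_cast at h3
    exact h3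
  -- the head
  have hhead : ‖∑ n ∈ Icc 1 N, f n * gg j s n‖ ≤ Y ^ j * (1 + Y) := by
    have h3 : ∀ n ∈ Icc 1 N, ‖f n * gg j s n‖ ≤ Y ^ j * (n : ℝ)⁻¹ := by
      intro n hn
      obtain ⟨hn1, hn2⟩ := Finset.mem_Icc.mp hn
      have hn1' : (1 : ℝ) ≤ n := by exact_mod_cast hn1
      have hn2' : (n : ℝ) ≤ N := by exact_mod_cast hn2
      have h4 := SeE_norm_gg j s hs1.le n hn1
      have h5 : 0 ≤ Real.log n := Real.log_nonneg hn1'
      have h6 : Real.log n ≤ Y := by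
        rw [hY]
        exact Real.log_le_log (by linarith) (by linarith)
      have h7 : (Real.log n) ^ j / n ≤ Y ^ j * (n : ℝ)⁻¹ := by
        rw [div_eq_mul_inv]
        exact mul_le_mul_of_nonneg_right (pow_le_pow_left₀ h5 h6 j) (by positivity)
      rw [norm_mul]
      calc ‖f n‖ * ‖gg j s n‖ ≤ 1 * ‖gg j s n‖ :=
            mul_le_mul_of_nonneg_right (hf1 n) (norm_nonneg _)
        _ ≤ Y ^ j * (n : ℝ)⁻¹ := by rw [one_mul]; exact h4.trans h7
    refine (norm_sum_le_of_le _ h3).trans ?_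
    rw [← Finset.mul_sum]
    apply mul_le_mul_of_nonneg_left _ (by positivity)
    have h8 : ∑ n ∈ Icc 1 N, (n : ℝ)⁻¹ = ((harmonic N : ℚ) : ℝ) := by
      rw [harmonic_eq_sum_Icc]
      push_cast
      rfl
    rw [h8]
    have h9 := harmonic_le_one_add_log N
    have h10 : Real.log N ≤ Y := by
      rw [hY]
      exact Real.log_le_log (by linarith) (by linarith)
    linarith
  -- the differences
  have hdiff : ∀ k : ℕ, ∑ i ∈ range k,
      ‖gg j s ((N + 1 + i + 1 : ℕ) : ℝ) - gg j s ((N + 1 + i : ℕ) : ℝ)‖ ≤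
      C1 * (|s.im| + 2) * (C2 * ((2 + Y) ^ j / ((N : ℝ) + 1))) := by
    intro k
    have h3 : ∀ i ∈ range k, ‖gg j s ((N + 1 + i + 1 : ℕ) : ℝ) - gg j s ((N + 1 + i : ℕ) : ℝ)‖ ≤
        C1 * (|s.im| + 2) * ((Real.log (((N + 1 + i : ℕ) : ℝ) + 1)) ^ j /
          ((N + 1 + i : ℕ) : ℝ) ^ 2) := by
      intro i _
      have h4 := hG (N + 1 + i) ((N + 1 + i + 1 : ℕ) : ℝ) s (by omega)
        (by push_cast; linarith) (by push_cast; linarith) hs1.le hs2
      refine h4.trans (le_of_eq ?_)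
      rw [hC1]
      ring
    refine (Finset.sum_le_sum h3).trans ?_
    rw [← Finset.mul_sum]
    apply mul_le_mul_of_nonneg_left _ (by positivity)
    have h5 := hT (N + 1) (N + k) (by omega)
    have h6 : ∑ i ∈ range k, (Real.log (((N + 1 + i : ℕ) : ℝ) + 1)) ^ j /
        ((N + 1 + i : ℕ) : ℝ) ^ 2 =
        ∑ n ∈ Icc (N + 1) (N + k), (Real.log ((n : ℝ) + 1)) ^ j / (n : ℝ) ^ 2 := by
      have h7 : Icc (N + 1) (N + k) = Ico (N + 1) (N + 1 + k) := by
        ext n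
        rw [Finset.mem_Icc, Finset.mem_Ico]
        omega
      rw [h7, Finset.sum_Ico_eq_sum_range]
      have h8 : N + 1 + k - (N + 1) = k := by omega
      rw [h8]
    rw [h6]
    refine h5.trans (le_of_eq ?_)
    rw [hY, hC2]
    push_cast
    rw [show (N : ℝ) + 1 + 1 = (N : ℝ) + 2 by ring]
  have hN1p : (0 : ℝ) < (N : ℝ) + 1 := by linarith
  have hg1 : ∀ m : ℕ, N + 1 ≤ m → ‖gg j s ((m : ℕ) : ℝ)‖ ≤
      (j.factorial : ℝ) * (2 + Y) ^ j / ((N : ℝ) + 1) := by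
    intro m hm
    have hm' : (N : ℝ) + 1 ≤ m := by exact_mod_cast hm
    have hm0 : (0 : ℝ) < m := by linarith
    have h3 := SeE_norm_gg j s hs1.le m (by omega)
    have h4 := SeE_pow j (R := (N : ℝ) + 1) (x := (m : ℝ)) (by linarith) hm'
    refine h3.trans ?_
    have h5 : 0 < √(m : ℝ) := Real.sqrt_pos.mpr hm0
    have h6 : 0 < √((N : ℝ) + 1) := Real.sqrt_pos.mpr hN1p
    have h7 : √((N : ℝ) + 1) ≤ √(m : ℝ) := Real.sqrt_le_sqrt hm'
    have h8 : (j.factorial : ℝ) * (2 + Real.log ((N : ℝ) + 1)) ^ j * (√(m : ℝ) / √((N : ℝ) + 1)) / m ≤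
        (j.factorial : ℝ) * (2 + Real.log ((N : ℝ) + 1)) ^ j / ((N : ℝ) + 1) := by
      have h9 : √(m : ℝ) / √((N : ℝ) + 1) / m ≤ 1 / ((N : ℝ) + 1) := by
        rw [div_div, div_le_div_iff₀ (by positivity) hN1p, one_mul]
        calc √(m : ℝ) * ((N : ℝ) + 1) = √(m : ℝ) * (√((N : ℝ) + 1) * √((N : ℝ) + 1)) := by
              rw [Real.mul_self_sqrt hN1p.le]
          _ ≤ √(m : ℝ) * (√((N : ℝ) + 1) * √(m : ℝ)) := by
              apply mul_le_mul_of_nonneg_left _ h5.le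
              exact mul_le_mul_of_nonneg_left h7 h6.le
          _ = √((N : ℝ) + 1) * (√(m : ℝ) * √(m : ℝ)) := by ring
          _ = √((N : ℝ) + 1) * m := by rw [Real.mul_self_sqrt hm0.le]
      have hLN : 0 ≤ Real.log ((N : ℝ) + 1) := Real.log_nonneg (by linarith)
      calc (j.factorial : ℝ) * (2 + Real.log ((N : ℝ) + 1)) ^ j * (√(m : ℝ) / √((N : ℝ) + 1)) / m =
            (j.factorial : ℝ) * (2 + Real.log ((N : ℝ) + 1)) ^ j *
              (√(m : ℝ) / √((N : ℝ) + 1) / m) := by ring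
        _ ≤ (j.factorial : ℝ) * (2 + Real.log ((N : ℝ) + 1)) ^ j * (1 / ((N : ℝ) + 1)) :=
            mul_le_mul_of_nonneg_left h9 (by positivity)
        _ = _ := by ring
    refine (div_le_div_of_nonneg_right h4 hm0.le).trans (h8.trans ?_)
    apply div_le_div_of_nonneg_right _ hN1p.le
    apply mul_le_mul_of_nonneg_left _ (by positivity)
    have hLN : 0 ≤ Real.log ((N : ℝ) + 1) := Real.log_nonneg (by linarith)
    apply pow_le_pow_left₀ (by positivity)
    have : Real.log ((N : ℝ) + 1) ≤ Y := by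
      rw [hY]
      exact Real.log_le_log (by linarith) (by linarith)
    linarith
  -- all partial sums
  have hall : ∀ k : ℕ, ‖∑ n ∈ Icc 1 (N + k), f n * gg j s n‖ ≤
      (j.factorial : ℝ) * (40 * E) ^ (j + 1) := by
    intro k
    have h3 := SeE_abel f (fun n => gg j s (n : ℝ)) N k
    rw [h3]
    have hD := hdiff k
    set D : ℝ := ∑ i ∈ range k,
      ‖gg j s ((N + 1 + i + 1 : ℕ) : ℝ) - gg j s ((N + 1 + i : ℕ) : ℝ)‖ with hDdef
    have hQ0 : 0 ≤ Q := by linarith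
    have h5 : ‖(∑ n ∈ Icc 1 (N + k), f n) * gg j s ((N + 1 + k : ℕ) : ℝ)‖ ≤
        Q * ((j.factorial : ℝ) * (2 + Y) ^ j / ((N : ℝ) + 1)) := by
      rw [norm_mul]
      exact mul_le_mul (hf2 _) (hg1 _ (by omega)) (norm_nonneg _) hQ0
    have h6 : ‖(∑ n ∈ Icc 1 N, f n) * gg j s ((N + 1 : ℕ) : ℝ)‖ ≤
        Q * ((j.factorial : ℝ) * (2 + Y) ^ j / ((N : ℝ) + 1)) := by
      rw [norm_mul]
      exact mul_le_mul (hf2 _) (hg1 _ le_rfl) (norm_nonneg _) hQ0
    have h7 : ‖∑ i ∈ range k, (∑ n ∈ Icc 1 (N + 1 + i), f n) *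
        (gg j s ((N + 1 + i + 1 : ℕ) : ℝ) - gg j s ((N + 1 + i : ℕ) : ℝ))‖ ≤ Q * D := by
      rw [hDdef, Finset.mul_sum]
      refine norm_sum_le_of_le _ fun i _ => ?_
      rw [norm_mul]
      exact mul_le_mul_of_nonneg_right (hf2 _) (norm_nonneg _)
    have hZ : 2 + Y ≤ 4 * E := by linarith
    have hZ0 : 0 ≤ 2 + Y := by linarith
    obtain ⟨Z, hZd⟩ : ∃ Z : ℝ, Z = (4 * E) ^ j := ⟨_, rfl⟩
    have hZj : (2 + Y) ^ j ≤ Z := by
      rw [hZd]
      exact pow_le_pow_left₀ hZ0 hZ j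
    have hZj0 : 0 ≤ (2 + Y) ^ j := pow_nonneg hZ0 j
    have hZp : 0 ≤ Z := hZj0.trans hZj
    have hYj : Y ^ j ≤ Z := (pow_le_pow_left₀ hY0 (by linarith) j).trans hZj
    have hXN1 : X / ((N : ℝ) + 1) ≤ 1 := by
      rw [div_le_one hN1p]
      linarith
    have h8 : Q * ((j.factorial : ℝ) * (2 + Y) ^ j / ((N : ℝ) + 1)) ≤
        (j.factorial : ℝ) * Z / 2 := by
      have h9 : Q / ((N : ℝ) + 1) ≤ 1 / 2 := by
        rw [div_le_div_iff₀ hN1p (by norm_num)]
        have : Q * 2 ≤ X := by rw [hX]; nlinarith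
        linarith
      calc Q * ((j.factorial : ℝ) * (2 + Y) ^ j / ((N : ℝ) + 1)) =
            (j.factorial : ℝ) * (2 + Y) ^ j * (Q / ((N : ℝ) + 1)) := by ring
        _ ≤ (j.factorial : ℝ) * Z * (1 / 2) := by
            apply mul_le_mul _ h9 (by positivity) (by positivity)
            exact mul_le_mul_of_nonneg_left hZj (by positivity)
        _ = _ := by ring
    have h9 : Q * D ≤ C1 * C2 * Z := by
      have h10 : Q * D ≤ Q * (C1 * (|s.im| + 2) * (C2 * ((2 + Y) ^ j / ((N : ℝ) + 1)))) :=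
        mul_le_mul_of_nonneg_left hD hQ0
      have h11 : Q * (C1 * (|s.im| + 2) * (C2 * ((2 + Y) ^ j / ((N : ℝ) + 1)))) =
          (C1 * C2 * (2 + Y) ^ j) * (X / ((N : ℝ) + 1)) := by
        rw [hX]
        ring
      have h13 : (C1 * C2 * (2 + Y) ^ j) * (X / ((N : ℝ) + 1)) ≤ (C1 * C2 * Z) * 1 := by
        apply mul_le_mul _ hXN1 (by positivity) (by positivity)
        exact mul_le_mul_of_nonneg_left hZj (by positivity)
      linarith
    have h14 : ‖∑ n ∈ Icc 1 N, f n * gg j s n +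
        (∑ n ∈ Icc 1 (N + k), f n) * gg j s ((N + 1 + k : ℕ) : ℝ) -
        (∑ n ∈ Icc 1 N, f n) * gg j s ((N + 1 : ℕ) : ℝ) -
        ∑ i ∈ range k, (∑ n ∈ Icc 1 (N + 1 + i), f n) *
          (gg j s ((N + 1 + i + 1 : ℕ) : ℝ) - gg j s ((N + 1 + i : ℕ) : ℝ))‖ ≤
        Y ^ j * (1 + Y) + (j.factorial : ℝ) * Z / 2 + (j.factorial : ℝ) * Z / 2 +
          C1 * C2 * Z := by
      refine (norm_sub_le _ _).trans ?_
      refine add_le_add ?_ (h7.trans h9)
      refine (norm_sub_le _ _).trans ?_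
      refine add_le_add ?_ (h6.trans h8)
      refine (norm_add_le _ _).trans ?_
      exact add_le_add hhead (h5.trans h8)
    refine h14.trans ?_
    have hfZ : 0 ≤ (j.factorial : ℝ) * Z := by positivity
    have h15 : Y ^ j * (1 + Y) ≤ (j.factorial : ℝ) * Z * (3 * E) := by
      have h16 : Y ^ j ≤ (j.factorial : ℝ) * Z := by nlinarith
      exact mul_le_mul h16 (by linarith) (by linarith) hfZ
    have h17 : Y ^ j * (1 + Y) + (j.factorial : ℝ) * Z / 2 + (j.factorial : ℝ) * Z / 2 +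
        C1 * C2 * Z ≤ (j.factorial : ℝ) * Z * (3 * E + 1 + 32 * ((j : ℝ) + 1)) := by
      have h18 : C1 * C2 * Z = (j.factorial : ℝ) * Z * (32 * ((j : ℝ) + 1)) := by
        rw [hC1, hC2]
        ring
      rw [h18]
      nlinarith
    have h19 : (j : ℝ) + 1 ≤ 2 ^ j := by
      have := Nat.lt_two_pow_self (n := j)
      exact_mod_cast this
    have h20 : (1 : ℝ) ≤ 2 ^ j := one_le_pow₀ (by norm_num)
    have h21 : 3 * E + 1 + 32 * ((j : ℝ) + 1) ≤ 2 ^ j * (40 * E) := by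
      nlinarith [mul_nonneg (sub_nonneg.mpr h20) (sub_nonneg.mpr hE1)]
    have h22 : Z * 2 ^ j ≤ (40 * E) ^ j := by
      rw [hZd, ← mul_pow]
      exact pow_le_pow_left₀ (by positivity) (by linarith) j
    calc _ ≤ (j.factorial : ℝ) * Z * (3 * E + 1 + 32 * ((j : ℝ) + 1)) := h17
      _ ≤ (j.factorial : ℝ) * Z * (2 ^ j * (40 * E)) := mul_le_mul_of_nonneg_left h21 hfZ
      _ = (j.factorial : ℝ) * (Z * 2 ^ j) * (40 * E) := by ring
      _ ≤ (j.factorial : ℝ) * (40 * E) ^ j * (40 * E) := by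
          apply mul_le_mul_of_nonneg_right _ (by positivity)
          exact mul_le_mul_of_nonneg_left h22 (by positivity)
      _ = _ := by ring
  -- the limit
  unfold DS LSeries
  by_cases hsum : Summable (LSeries.term (fun n => f n * ((Real.log n : ℝ) : ℂ) ^ j) s)
  · have hlim := (hsum.hasSum.tendsto_sum_nat).norm
    refine le_of_tendsto hlim (Filter.eventually_atTop.mpr ⟨N + 1, fun M hM => ?_⟩)
    obtain ⟨k, hk⟩ := Nat.exists_eq_add_of_le hM
    have h3 : M = (N + k) + 1 := by omega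
    rw [h3, SeE_partial]
    exact hall k
  · rw [tsum_eq_zero_of_not_summable hsum, norm_zero]
    positivity

end Pool.Agent.Lib.MP_9f2731_nt.GP.Ap
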