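import Pool.Agent.Lib.MP_9f2731_nt.GP.Ap.Spec

/-!
MP_9f2731_nt, THEOREM GP, chapter Ap, module SwE (helper31): explicit bound for the prime sum of one character.
-/

namespace Pool.Agent.Lib.MP_9f2731_nt.GP.Ap

open Finset Pool.Agent.Lib.BV

private theorem SwE_chf {q : ℕ} (χ : DirichletCharacter ℂ q) (n : ℕ) : ‖chf χ n‖ ≤ 1 :=
  DirichletCharacter.norm_le_one χ _

private theorem SwE_log (n : ℕ) : 0 ≤ Real.log (n : ℝ) := Real.log_natCast_nonneg n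

private theorem SwE_f {q : ℕ} (χ : DirichletCharacter ℂ q) (n : ℕ) :
    ‖((ArithmeticFunction.vonMangoldt n : ℝ) : ℂ) * chf χ n‖ ≤ Real.log n := by
  rw [norm_mul, Complex.norm_real, Real.norm_of_nonneg ArithmeticFunction.vonMangoldt_nonneg]
  calc ArithmeticFunction.vonMangoldt n * ‖chf χ n‖ ≤ Real.log n * 1 :=
        mul_le_mul ArithmeticFunction.vonMangoldt_le_log (SwE_chf χ n) (norm_nonneg _) (SwE_log n)
    _ = Real.log n := mul_one _

/-- powers of the logarithm -/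
private theorem SwE_pow (k : ℕ) (v : ℝ) (hv : 1 ≤ v) :
    (1 + Real.log v) ^ k ≤ 2 * (2 * (k : ℝ)) ^ k * v ^ ((1 : ℝ) / 2) := by
  have hv0 : 0 < v := by linarith
  have hl : 0 ≤ Real.log v := Real.log_nonneg hv
  have h1 : ((1 + Real.log v) / 2) ^ k / (k.factorial : ℝ) ≤ Real.exp ((1 + Real.log v) / 2) :=
    Real.pow_div_factorial_le_exp _ (by linarith) k
  have hk : (0 : ℝ) < (k.factorial : ℝ) := by exact_mod_cast k.factorial_pos
  rw [div_le_iff₀ hk] at h1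
  have h2 : Real.exp ((1 + Real.log v) / 2) ≤ 2 * v ^ ((1 : ℝ) / 2) := by
    have e1 : Real.exp ((1 + Real.log v) / 2) = Real.exp (1 / 2) * v ^ ((1 : ℝ) / 2) := by
      rw [Real.rpow_def_of_pos hv0, ← Real.exp_add]
      congr 1
      ring
    rw [e1]
    apply mul_le_mul_of_nonneg_right _ (by positivity)
    have e2 : Real.exp (1 / 2) ^ 2 ≤ 2 ^ 2 := by
      rw [← Real.exp_nat_mul]
      have := Real.exp_one_lt_d9
      norm_num
      linarith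
    exact le_of_sq_le_sq e2 (by norm_num)
  have h3 : (k.factorial : ℝ) ≤ (k : ℝ) ^ k := by exact_mod_cast Nat.factorial_le_pow k
  have h4 : 0 < v ^ ((1 : ℝ) / 2) := Real.rpow_pos_of_pos hv0 _
  have h5 : (1 + Real.log v) ^ k = 2 ^ k * ((1 + Real.log v) / 2) ^ k := by
    rw [div_pow]
    field_simp
  rw [h5]
  calc 2 ^ k * ((1 + Real.log v) / 2) ^ k
      ≤ 2 ^ k * (Real.exp ((1 + Real.log v) / 2) * (k.factorial : ℝ)) :=
        mul_le_mul_of_nonneg_left h1 (by positivity)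
    _ ≤ 2 ^ k * ((2 * v ^ ((1 : ℝ) / 2)) * (k : ℝ) ^ k) := by
        apply mul_le_mul_of_nonneg_left _ (by positivity)
        exact mul_le_mul h2 h3 (by positivity) (by positivity)
    _ = 2 * (2 * (k : ℝ)) ^ k * v ^ ((1 : ℝ) / 2) := by
        rw [mul_pow]
        ring

/-- the explicit constant for the series -/
private noncomputable def SwE_K (B : ℝ) (i q : ℕ) : ℝ :=
  2 * (2 * (i : ℝ)) ^ (2 * i) * B ^ (2 * i) * (44 * (i : ℝ)) ^ (22 * i) *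
    (1 + Real.log q) ^ (22 * i)

private theorem SwE_K_one (B : ℝ) (hB : 1 ≤ B) (i q : ℕ) (hi : 1 ≤ i) (hq : 2 ≤ q) :
    1 ≤ SwE_K B i q := by
  have hi' : (1 : ℝ) ≤ i := by exact_mod_cast hi
  have hq' : (1 : ℝ) ≤ q := by
    have : 1 ≤ q := by omega
    exact_mod_cast this
  have hl : 0 ≤ Real.log q := Real.log_nonneg hq'
  have h1 : (1 : ℝ) ≤ (2 * (i : ℝ)) ^ (2 * i) := one_le_pow₀ (by linarith)
  have h2 : (1 : ℝ) ≤ B ^ (2 * i) := one_le_pow₀ hB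
  have h3 : (1 : ℝ) ≤ (44 * (i : ℝ)) ^ (22 * i) := one_le_pow₀ (by linarith)
  have h4 : (1 : ℝ) ≤ (1 + Real.log q) ^ (22 * i) := one_le_pow₀ (by linarith)
  unfold SwE_K
  have h5 : (1 : ℝ) ≤ 2 * (2 * (i : ℝ)) ^ (2 * i) := by linarith
  have h6 : (1 : ℝ) ≤ 2 * (2 * (i : ℝ)) ^ (2 * i) * B ^ (2 * i) :=
    one_le_mul_of_one_le_of_one_le h5 h2
  have h7 : (1 : ℝ) ≤ 2 * (2 * (i : ℝ)) ^ (2 * i) * B ^ (2 * i) * (44 * (i : ℝ)) ^ (22 * i) :=
    one_le_mul_of_one_le_of_one_le h6 h3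
  exact one_le_mul_of_one_le_of_one_le h7 h4

/-- the bound for the series -/
private theorem SwE_series (B : ℝ) (hB : 1 ≤ B) (i q : ℕ) (hi : 1 ≤ i) (hq : 2 ≤ q) (t : ℝ) :
    ((2 * i - 1).factorial : ℝ) * (B * (ell q t) ^ 11) ^ (2 * i - 1 + 1) ≤
      SwE_K B i q * (|t| + 2) ^ ((1 : ℝ) / 2) := by
  have hi' : (1 : ℝ) ≤ i := by exact_mod_cast hi
  have hq' : (1 : ℝ) ≤ q := by
    have : 1 ≤ q := by omega
    exact_mod_cast this
  have hl : 0 ≤ Real.log q := Real.log_nonneg hq'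
  have ht : (1 : ℝ) ≤ |t| + 2 := by
    have := abs_nonneg t
    linarith
  have hlt : 0 ≤ Real.log (|t| + 2) := Real.log_nonneg ht
  have e1 : 2 * i - 1 + 1 = 2 * i := by omega
  rw [e1]
  have hell : ell q t = Real.log q + Real.log (|t| + 2) := by
    unfold ell
    rw [Real.log_mul (by linarith) (by linarith)]
  have hell0 : 0 ≤ ell q t := by
    rw [hell]
    linarith
  have hell1 : ell q t ≤ (1 + Real.log q) * (1 + Real.log (|t| + 2)) := by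
    rw [hell]
    nlinarith
  have h1 : ((2 * i - 1).factorial : ℝ) ≤ (2 * (i : ℝ)) ^ (2 * i) := by
    have h2 : (2 * i - 1).factorial ≤ (2 * i) ^ (2 * i) :=
      (Nat.factorial_le (by omega)).trans (Nat.factorial_le_pow (2 * i))
    have h3 : ((2 * i - 1).factorial : ℝ) ≤ (((2 * i) ^ (2 * i) : ℕ) : ℝ) := by
      exact_mod_cast h2
    refine h3.trans (le_of_eq ?_)
    push_cast
    ring
  have h2 : (B * (ell q t) ^ 11) ^ (2 * i) = B ^ (2 * i) * (ell q t) ^ (22 * i) := by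
    rw [mul_pow, ← pow_mul]
    congr 2
    ring
  have h3 : (ell q t) ^ (22 * i) ≤
      (1 + Real.log q) ^ (22 * i) * (1 + Real.log (|t| + 2)) ^ (22 * i) := by
    rw [← mul_pow]
    exact pow_le_pow_left₀ hell0 hell1 _
  have h4 := SwE_pow (22 * i) (|t| + 2) ht
  have h5 : (2 : ℝ) * ((22 * i : ℕ) : ℝ) = 44 * (i : ℝ) := by
    push_cast
    ring
  rw [h5] at h4
  have hp : 0 ≤ (|t| + 2) ^ ((1 : ℝ) / 2) := Real.rpow_nonneg (by linarith) _
  rw [h2]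
  calc ((2 * i - 1).factorial : ℝ) * (B ^ (2 * i) * (ell q t) ^ (22 * i))
      ≤ (2 * (i : ℝ)) ^ (2 * i) * (B ^ (2 * i) * ((1 + Real.log q) ^ (22 * i) *
          (2 * (44 * (i : ℝ)) ^ (22 * i) * (|t| + 2) ^ ((1 : ℝ) / 2)))) := by
        apply mul_le_mul h1 _ (by positivity) (by positivity)
        apply mul_le_mul_of_nonneg_left _ (by positivity)
        refine h3.trans ?_
        exact mul_le_mul_of_nonneg_left h4 (by positivity)
    _ = SwE_K B i q * (|t| + 2) ^ ((1 : ℝ) / 2) := by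
        unfold SwE_K
        ring

/-- the final constant -/
private theorem SwE_num (B C1 : ℝ) (hB : 1 ≤ B) (hC1 : 0 < C1) (i q : ℕ) (hi : 1 ≤ i) (hq : 2 ≤ q)
    (x : ℝ) (hx : 1 < x) :
    4 * 8 ^ i * (10 * 4 ^ i * (i.factorial : ℝ) * (C1 * SwE_K B i q + 1)) *
      (x / (Real.log x) ^ i) ≤
    80 * (C1 + 1) * (x * (128 * 44 ^ 22 * B ^ 2 * (i : ℝ) ^ 25 * (1 + Real.log q) ^ 22 /
      Real.log x) ^ i) := by
  have hK := SwE_K_one B hB i q hi hq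
  have hlx : 0 < Real.log x := Real.log_pos hx
  have hx0 : 0 < x := by linarith
  have hq' : (1 : ℝ) ≤ q := by
    have : 1 ≤ q := by omega
    exact_mod_cast this
  have hl : 0 ≤ Real.log q := Real.log_nonneg hq'
  have h1 : (i.factorial : ℝ) ≤ (i : ℝ) ^ i := by exact_mod_cast Nat.factorial_le_pow i
  have h2 : C1 * SwE_K B i q + 1 ≤ (C1 + 1) * SwE_K B i q := by nlinarith
  have h3 : 4 * 8 ^ i * (10 * 4 ^ i * (i.factorial : ℝ) * (C1 * SwE_K B i q + 1)) ≤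
      4 * 8 ^ i * (10 * 4 ^ i * (i : ℝ) ^ i * ((C1 + 1) * SwE_K B i q)) := by
    apply mul_le_mul_of_nonneg_left _ (by positivity)
    apply mul_le_mul _ h2 (by positivity) (by positivity)
    exact mul_le_mul_of_nonneg_left h1 (by positivity)
  have hX : 0 ≤ x / (Real.log x) ^ i := by positivity
  refine (mul_le_mul_of_nonneg_right h3 hX).trans (le_of_eq ?_)
  unfold SwE_K
  have e1 : (32 : ℝ) ^ i = 8 ^ i * 4 ^ i := by
    rw [← mul_pow]
    norm_num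
  have e2 : (2 * (i : ℝ)) ^ (2 * i) = 4 ^ i * (i : ℝ) ^ (2 * i) := by
    rw [mul_pow, pow_mul 2 2 i]
    norm_num
  have e3 : (44 * (i : ℝ)) ^ (22 * i) = (44 ^ 22) ^ i * (i : ℝ) ^ (22 * i) := by
    rw [mul_pow, pow_mul 44 22 i]
  have e4 : (i : ℝ) ^ i * (i : ℝ) ^ (2 * i) * (i : ℝ) ^ (22 * i) = ((i : ℝ) ^ 25) ^ i := by
    rw [← pow_add, ← pow_add, ← pow_mul]
    congr 1
    ring
  have e5 : B ^ (2 * i) = (B ^ 2) ^ i := pow_mul B 2 i
  have e6 : (1 + Real.log q) ^ (22 * i) = ((1 + Real.log q) ^ 22) ^ i := pow_mul _ 22 i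
  have e7 : (128 : ℝ) ^ i = 32 ^ i * 4 ^ i := by
    rw [← mul_pow]
    norm_num
  have e8 : (128 * 44 ^ 22 * B ^ 2 * (i : ℝ) ^ 25 * (1 + Real.log q) ^ 22 / Real.log x) ^ i =
      128 ^ i * (44 ^ 22) ^ i * (B ^ 2) ^ i * ((i : ℝ) ^ 25) ^ i * ((1 + Real.log q) ^ 22) ^ i /
        (Real.log x) ^ i := by
    rw [div_pow, mul_pow, mul_pow, mul_pow, mul_pow]
  rw [e8, e2, e3, e5, e6, ← e4, e7, e1]
  generalize (44 : ℝ) ^ 22 = w
  ring

theorem tSwE (h1 : FkPStmt) (h2 : Pool.Agent.Lib.BV.SmbStmt) (h3 : Pool.Agent.Lib.BV.PerStmt)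
    (h4 : UnEStmt) (h5 : PaEStmt) (h6 : Pool.Agent.Lib.BV.PpsStmt) : SwEStmt := by
  intro S
  obtain ⟨B, hB, hF⟩ := h1 S
  obtain ⟨C1, hC1, hP⟩ := h3
  obtain ⟨C4, hC4, hQ⟩ := h6
  obtain ⟨D1, hD1⟩ : ∃ D1 : ℝ, D1 = 128 * 44 ^ 22 * B ^ 2 := ⟨_, rfl⟩
  have hD1p : 0 < D1 := by
    rw [hD1]
    positivity
  obtain ⟨D, hD⟩ : ∃ D : ℝ, D = 80 * (C1 + 1) + D1 + C4 := ⟨_, rfl⟩
  have hD2 : 80 * (C1 + 1) ≤ D := by
    rw [hD]
    linarith
  have hD3 : D1 ≤ D := by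
    rw [hD]
    linarith
  have hD4 : C4 ≤ D := by
    rw [hD]
    linarith
  refine ⟨D, by linarith, ?_⟩
  intro i q χ x hi hq hS hχ hx
  have hx0 : 0 < x := by linarith
  have hl : 0 < Real.log x := Real.log_pos (by linarith)
  have hK := SwE_K_one B hB i q hi hq
  -- the coefficients
  have hc1 : ∀ n : ℕ, ‖((ArithmeticFunction.vonMangoldt n : ℝ) : ℂ) * chf χ n *
      ((Real.log n : ℝ) : ℂ) ^ (2 * i - 1)‖ ≤ (1 + Real.log n) ^ (2 * i) := by
    intro n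
    have hn := SwE_log n
    rw [norm_mul, norm_pow, Complex.norm_real, Real.norm_of_nonneg hn]
    calc ‖((ArithmeticFunction.vonMangoldt n : ℝ) : ℂ) * chf χ n‖ * Real.log n ^ (2 * i - 1)
        ≤ Real.log n * Real.log n ^ (2 * i - 1) :=
          mul_le_mul_of_nonneg_right (SwE_f χ n) (pow_nonneg hn _)
      _ = Real.log n ^ (2 * i) := by
          rw [← pow_succ']
          congr 1
          omega
      _ ≤ (1 + Real.log n) ^ (2 * i) := pow_le_pow_left₀ hn (by linarith) _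
  have hsum : ∀ s : ℂ, 1 < s.re → LSeriesSummable
      (fun n => ((ArithmeticFunction.vonMangoldt n : ℝ) : ℂ) * chf χ n *
        ((Real.log n : ℝ) : ℂ) ^ (2 * i - 1)) s := by
    intro s hs
    exact h2 (fun n => ((ArithmeticFunction.vonMangoldt n : ℝ) : ℂ) * chf χ n) (2 * i - 1) s
      (fun n _ => by have := SwE_f χ n; linarith) hs
  have hLS : ∀ s : ℂ, 1 < s.re → s.re ≤ 2 → ‖LSeries
      (fun n => ((ArithmeticFunction.vonMangoldt n : ℝ) : ℂ) * chf χ n *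
        ((Real.log n : ℝ) : ℂ) ^ (2 * i - 1)) s‖ ≤
      SwE_K B i q * (|s.im| + 2) ^ ((1 : ℝ) / 2) := fun s hs1 hs2 =>
    (hF (2 * i - 1) q χ s hq hS hχ hs1 hs2).trans (SwE_series B hB i q hi hq s.im)
  have hA := hP _ (SwE_K B i q) (by linarith) hsum hLS
  have hA2 := h4 i _ (C1 * SwE_K B i q) (by positivity) hc1 hA
  have hmain := h5 i _ (10 * 4 ^ i * (i.factorial : ℝ) * (C1 * SwE_K B i q + 1)) hi
    (by positivity) hA2 x hx
  have hps := hQ (chf χ) x hx (SwE_chf χ)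
  -- the coefficients in the range
  have hsqrt : 2 ≤ Real.sqrt x := by
    rw [show (2 : ℝ) = Real.sqrt 4 by
      rw [show (4 : ℝ) = 2 ^ 2 by norm_num, Real.sqrt_sq (by norm_num)]]
    exact Real.sqrt_le_sqrt hx
  have hfl : 2 ≤ ⌊Real.sqrt x⌋₊ := Nat.le_floor (by exact_mod_cast hsqrt)
  have heq : ∑ n ∈ Ioc ⌊Real.sqrt x⌋₊ ⌊x⌋₊,
      (((ArithmeticFunction.vonMangoldt n : ℝ) : ℂ) * chf χ n *
        ((Real.log n : ℝ) : ℂ) ^ (2 * i - 1)) / ((Real.log n : ℝ) : ℂ) ^ (2 * i) =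
      ∑ n ∈ Ioc ⌊Real.sqrt x⌋₊ ⌊x⌋₊,
        ((ArithmeticFunction.vonMangoldt n / Real.log n : ℝ) : ℂ) * chf χ n := by
    apply Finset.sum_congr rfl
    intro n hn
    rw [Finset.mem_Ioc] at hn
    have hn3 : 3 ≤ n := by omega
    have hln : 0 < Real.log (n : ℝ) := Real.log_pos (by
      have : (3 : ℝ) ≤ n := by exact_mod_cast hn3
      linarith)
    have hlc : ((Real.log n : ℝ) : ℂ) ≠ 0 := by exact_mod_cast hln.ne'
    have h2i : ((Real.log n : ℝ) : ℂ) ^ (2 * i) =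
        ((Real.log n : ℝ) : ℂ) ^ (2 * i - 1) * ((Real.log n : ℝ) : ℂ) := by
      rw [← pow_succ]
      congr 1
      omega
    have hgen : ∀ (a b t : ℂ) (k : ℕ), t ≠ 0 → a * b * t ^ k / (t ^ k * t) = a / t * b := by
      intro a b t k ht
      field_simp
    rw [h2i, Complex.ofReal_div]
    exact hgen _ _ _ _ hlc
  rw [heq] at hmain
  have hb1 := SwE_num B C1 hB hC1 i q hi hq x (by linarith)
  rw [← hD1] at hb1
  have hq' : (1 : ℝ) ≤ q := by
    have : 1 ≤ q := by omega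
    exact_mod_cast this
  have hlq : 0 ≤ Real.log q := Real.log_nonneg hq'
  have hb2 : 80 * (C1 + 1) * (x * (D1 * (i : ℝ) ^ 25 * (1 + Real.log q) ^ 22 /
      Real.log x) ^ i) ≤ D * (x * (D * (i : ℝ) ^ 25 * (1 + Real.log q) ^ 22 /
      Real.log x) ^ i) := by
    apply mul_le_mul hD2 _ (by positivity) (by linarith)
    apply mul_le_mul_of_nonneg_left _ hx0.le
    apply pow_le_pow_left₀ (by positivity)
    apply div_le_div_of_nonneg_right _ hl.le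
    apply mul_le_mul_of_nonneg_right _ (by positivity)
    exact mul_le_mul_of_nonneg_right hD3 (by positivity)
  have hb3 : C4 * (Real.sqrt x * Real.log x) ≤ D * (Real.sqrt x * Real.log x) :=
    mul_le_mul_of_nonneg_right hD4 (by positivity)
  have htri : ‖∑ p ∈ (Icc 1 ⌊x⌋₊).filter Nat.Prime, chf χ p‖ ≤
      ‖∑ n ∈ Ioc ⌊Real.sqrt x⌋₊ ⌊x⌋₊,
        ((ArithmeticFunction.vonMangoldt n / Real.log n : ℝ) : ℂ) * chf χ n‖ +
      ‖∑ n ∈ Ioc ⌊Real.sqrt x⌋₊ ⌊x⌋₊,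
        ((ArithmeticFunction.vonMangoldt n / Real.log n : ℝ) : ℂ) * chf χ n -
        ∑ n ∈ (Icc 1 ⌊x⌋₊).filter Nat.Prime, chf χ n‖ := by
    have := norm_sub_le (∑ n ∈ Ioc ⌊Real.sqrt x⌋₊ ⌊x⌋₊,
        ((ArithmeticFunction.vonMangoldt n / Real.log n : ℝ) : ℂ) * chf χ n)
      (∑ n ∈ Ioc ⌊Real.sqrt x⌋₊ ⌊x⌋₊,
        ((ArithmeticFunction.vonMangoldt n / Real.log n : ℝ) : ℂ) * chf χ n -
        ∑ n ∈ (Icc 1 ⌊x⌋₊).filter Nat.Prime, chf χ n)
    rwa [sub_sub_cancel] at this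
  show ‖∑ p ∈ (Icc 1 ⌊x⌋₊).filter Nat.Prime, chf χ p‖ ≤ _
  rw [mul_add]
  linarith

end Pool.Agent.Lib.MP_9f2731_nt.GP.Ap
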