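import Pool.Agent.Lib.MP_9f2731_nt.GP.Ap.Spec

/-!
MP_9f2731_nt, GP/Ap/SwP: prime sums over a character, final bound (helper37)
-/

namespace Pool.Agent.Lib.MP_9f2731_nt.GP.Ap

open Finset Pool.Agent.Lib.BV

private lemma SwP_rpow {L : ℝ} (hL : 0 ≤ L) (n : ℕ) (r : ℝ) (hr : r = 1 / 240 * (n : ℝ)) :
    L ^ r = (L ^ ((1 : ℝ) / 240)) ^ n := by
  rw [hr, Real.rpow_mul hL, Real.rpow_natCast]

private lemma SwP_exp {y : ℝ} (hy : 0 ≤ y) : y ^ 2 / 2 ≤ Real.exp y := by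
  have := Real.quadratic_le_exp_of_nonneg hy
  linarith

/-- the main factor -/
private lemma SwP_main {D K y i q : ℝ} (hD : 1 ≤ D) (hK : K = 4 ^ 25 * 2 ^ 22) (hy : 3 * D * K ≤ y)
    (hy1 : 1 ≤ y) (hi0 : 0 ≤ i) (hi : i ≤ 4 * y ^ 4) (hq0 : 0 ≤ q) (hq : q ≤ 2 * y ^ 3) :
    D * i ^ 25 * q ^ 22 / y ^ 240 ≤ Real.exp (-1) := by
  have hy0 : 0 < y := by linarith
  rw [div_le_iff₀ (by positivity)]
  have he : (1 : ℝ) / 3 ≤ Real.exp (-1) := by
    rw [Real.exp_neg, one_div]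
    apply inv_anti₀ (Real.exp_pos 1)
    have := Real.exp_one_lt_d9
    linarith
  have h1 : D * i ^ 25 * q ^ 22 ≤ D * (4 * y ^ 4) ^ 25 * (2 * y ^ 3) ^ 22 := by gcongr
  have h2 : D * (4 * y ^ 4) ^ 25 * (2 * y ^ 3) ^ 22 = D * K * y ^ 166 := by
    rw [hK]; ring
  have h3 : y ≤ y ^ 74 := le_self_pow₀ hy1 (by norm_num)
  have h4 : 3 * D * K ≤ y ^ 74 := hy.trans h3
  have h5 : D * K * y ^ 166 ≤ 1 / 3 * y ^ 240 := by
    have h6 : y ^ 240 = y ^ 74 * y ^ 166 := by ring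
    rw [h6]
    have h7 : (0 : ℝ) ≤ y ^ 166 := by positivity
    nlinarith [mul_le_mul_of_nonneg_right h4 h7]
  calc D * i ^ 25 * q ^ 22 ≤ D * K * y ^ 166 := by rw [← h2]; exact h1
    _ ≤ 1 / 3 * y ^ 240 := h5
    _ ≤ Real.exp (-1) * y ^ 240 := by gcongr

theorem tSwP (h1 : SwEStmt) : SwPStmt := by
  intro S
  obtain ⟨D, hD, hS⟩ := h1 S
  obtain ⟨K, hK⟩ : ∃ K : ℝ, K = 4 ^ 25 * 2 ^ 22 := ⟨_, rfl⟩
  have hK64 : 64 ≤ K := by rw [hK]; norm_num
  have hY64 : 64 * D ≤ 3 * D * K := by nlinarith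
  refine ⟨Real.exp ((3 * D * K) ^ 240), ?_⟩
  intro x q χ hx hq hSm hχ hlog
  have hx0 : 0 < x := (Real.exp_pos _).trans_le hx
  obtain ⟨L, hL⟩ : ∃ L : ℝ, L = Real.log x := ⟨_, rfl⟩
  have hLx : Real.exp L = x := by rw [hL, Real.exp_log hx0]
  have hLge : (3 * D * K) ^ 240 ≤ L := by
    rw [hL, Real.le_log_iff_exp_le hx0]; exact hx
  have hY0 : 0 < 3 * D * K := by linarith
  have hL0 : 0 < L := lt_of_lt_of_le (by positivity) hLge
  obtain ⟨y, hy⟩ : ∃ y : ℝ, y = L ^ ((1 : ℝ) / 240) := ⟨_, rfl⟩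
  have hy240 : L = y ^ 240 := by
    rw [hy, ← SwP_rpow hL0.le 240 1 (by norm_num), Real.rpow_one]
  have hy4 : L ^ ((1 : ℝ) / 60) = y ^ 4 := by
    rw [hy]; exact SwP_rpow hL0.le 4 _ (by norm_num)
  have hy3 : L ^ ((1 : ℝ) / 80) = y ^ 3 := by
    rw [hy]; exact SwP_rpow hL0.le 3 _ (by norm_num)
  have hypos : 0 < y := by rw [hy]; exact Real.rpow_pos_of_pos hL0 _
  have hyY : 3 * D * K ≤ y := by
    have : (3 * D * K) ^ 240 ≤ y ^ 240 := by rw [← hy240]; exact hLge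
    exact le_of_pow_le_pow_left₀ (by norm_num) hypos.le this
  have hy64 : 64 * D ≤ y := hY64.trans hyY
  have hy1 : 1 ≤ y := by linarith
  have hyL : y ≤ L := by rw [hy240]; exact le_self_pow₀ hy1 (by norm_num)
  rw [← hL] at hlog ⊢
  rw [hy3] at hlog
  rw [hy4]
  -- the number of logarithms
  obtain ⟨i, hi⟩ : ∃ i : ℕ, i = ⌈3 * y ^ 4⌉₊ := ⟨_, rfl⟩
  have hy4p : 1 ≤ y ^ 4 := one_le_pow₀ hy1
  have hi1 : (3 : ℝ) * y ^ 4 ≤ i := by rw [hi]; exact Nat.le_ceil _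
  have hi2 : (i : ℝ) ≤ 4 * y ^ 4 := by
    have : (i : ℝ) < 3 * y ^ 4 + 1 := by rw [hi]; exact Nat.ceil_lt_add_one (by positivity)
    linarith
  have hi3 : 1 ≤ i := by
    have : (1 : ℝ) ≤ i := by linarith
    exact_mod_cast this
  have hlq : 0 ≤ Real.log q := Real.log_natCast_nonneg q
  have hy3p : 1 ≤ y ^ 3 := one_le_pow₀ hy1
  have hA := SwP_main (q := 1 + Real.log q) hD hK hyY hy1 (by positivity) hi2 (by linarith)
    (by linarith)
  have hx4 : 4 ≤ x := by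
    rw [← hLx]
    have := Real.add_one_le_exp L
    linarith
  have hmain := hS i q χ x hi3 hq hSm hχ hx4
  refine hmain.trans ?_
  rw [← hL]
  have hB : (D * (i : ℝ) ^ 25 * (1 + Real.log q) ^ 22 / L) ^ i ≤ Real.exp (-(3 * y ^ 4)) := by
    rw [← hy240] at hA
    calc (D * (i : ℝ) ^ 25 * (1 + Real.log q) ^ 22 / L) ^ i ≤ Real.exp (-1) ^ i := by
          apply pow_le_pow_left₀ _ hA
          positivity
      _ = Real.exp (-(i : ℝ)) := by
          rw [← Real.exp_nat_mul]; congr 1; ring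
      _ ≤ Real.exp (-(3 * y ^ 4)) := Real.exp_le_exp.2 (by linarith)
  -- first term
  have hT1 : D * (x * (D * (i : ℝ) ^ 25 * (1 + Real.log q) ^ 22 / L) ^ i)
      ≤ x * Real.exp (-y ^ 4) / 2 := by
    have e1 : Real.exp (-(3 * y ^ 4)) = Real.exp (-y ^ 4) * Real.exp (-(2 * y ^ 4)) := by
      rw [← Real.exp_add]; congr 1; ring
    have e2 : D * Real.exp (-(2 * y ^ 4)) ≤ 1 / 2 := by
      rw [Real.exp_neg, ← div_eq_mul_inv, div_le_iff₀ (Real.exp_pos _)]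
      have := Real.add_one_le_exp (2 * y ^ 4)
      have h7 : y ≤ y ^ 4 := le_self_pow₀ hy1 (by norm_num)
      linarith
    calc D * (x * (D * (i : ℝ) ^ 25 * (1 + Real.log q) ^ 22 / L) ^ i)
        ≤ D * (x * Real.exp (-(3 * y ^ 4))) := by gcongr
      _ = x * Real.exp (-y ^ 4) * (D * Real.exp (-(2 * y ^ 4))) := by rw [e1]; ring
      _ ≤ x * Real.exp (-y ^ 4) * (1 / 2) := by gcongr
      _ = x * Real.exp (-y ^ 4) / 2 := by ring
  -- second term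
  have hT2 : D * (Real.sqrt x * L) ≤ x * Real.exp (-y ^ 4) / 2 := by
    have e1 : Real.sqrt x = Real.exp (L / 2) := by
      rw [← hLx, ← Real.exp_half]
    have e2 : y ^ 4 ≤ L / 4 := by
      have h8 : y ^ 240 = y ^ 4 * y ^ 236 := by ring
      have h9 : y ≤ y ^ 236 := le_self_pow₀ hy1 (by norm_num)
      have h10 : 4 ≤ y ^ 236 := by linarith
      rw [hy240, h8]
      nlinarith
    have e3 : 2 * D * L ≤ Real.exp (L / 4) := by
      have h11 := SwP_exp (y := L / 4) (by positivity)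
      have h12 : 64 * D ≤ L := hy64.trans hyL
      nlinarith
    have e4 : x * Real.exp (-y ^ 4) = Real.exp (L / 2) * Real.exp (L / 2 - y ^ 4) := by
      rw [← hLx, ← Real.exp_add, ← Real.exp_add]; congr 1; ring
    have e5 : Real.exp (L / 4) ≤ Real.exp (L / 2 - y ^ 4) := Real.exp_le_exp.2 (by linarith)
    rw [e1, e4]
    have h13 : 0 < Real.exp (L / 2) := Real.exp_pos _
    have h14 : 2 * D * L ≤ Real.exp (L / 2 - y ^ 4) := e3.trans e5
    nlinarith [mul_le_mul_of_nonneg_left h14 h13.le]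
  calc D * (x * (D * (i : ℝ) ^ 25 * (1 + Real.log q) ^ 22 / L) ^ i + Real.sqrt x * L)
      = D * (x * (D * (i : ℝ) ^ 25 * (1 + Real.log q) ^ 22 / L) ^ i)
        + D * (Real.sqrt x * L) := by ring
    _ ≤ x * Real.exp (-y ^ 4) / 2 + x * Real.exp (-y ^ 4) / 2 := add_le_add hT1 hT2
    _ = x * Real.exp (-y ^ 4) := by ring

end Pool.Agent.Lib.MP_9f2731_nt.GP.Ap
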