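import Pool.Agent.Lib.MP_9f2731_nt.GP.Ap.Spec

/-!
MP_9f2731_nt, THEOREM GP, chapter Ap, module TaE: tail sums with logarithms, explicit in j.
-/

namespace Pool.Agent.Lib.MP_9f2731_nt.GP.Ap

open Finset Pool.Agent.Lib.BV

/-- comparison of a power of 1 + v with the exponential -/
private theorem TaE_exp (j : ℕ) {v : ℝ} (hv : 0 ≤ v) :
    (1 + v) ^ j ≤ (j.factorial : ℝ) * Real.exp v := by
  have h1 := Real.sum_le_exp_of_nonneg hv (j + 1)
  have h2 : (1 + v) ^ j ≤ (j.factorial : ℝ) * ∑ i ∈ range (j + 1), v ^ i / (i.factorial : ℝ) := by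
    rw [add_comm, add_pow, Finset.mul_sum]
    apply Finset.sum_le_sum
    intro i hi
    have hi' : i ≤ j := by
      have := Finset.mem_range.mp hi
      omega
    have h3 : (j.choose i : ℝ) * (i.factorial : ℝ) ≤ (j.factorial : ℝ) := by
      have h4 := Nat.choose_mul_factorial_mul_factorial hi'
      have h5 : j.choose i * i.factorial ≤ j.factorial := by
        rw [← h4]
        exact Nat.le_mul_of_pos_right _ (Nat.factorial_pos _)
      exact_mod_cast h5
    have h6 : (0 : ℝ) < (i.factorial : ℝ) := by exact_mod_cast Nat.factorial_pos i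
    rw [one_pow, mul_one, mul_div_assoc', le_div_iff₀ h6]
    calc v ^ i * (j.choose i : ℝ) * (i.factorial : ℝ) =
          v ^ i * ((j.choose i : ℝ) * (i.factorial : ℝ)) := by ring
      _ ≤ v ^ i * (j.factorial : ℝ) := mul_le_mul_of_nonneg_left h3 (pow_nonneg hv i)
      _ = (j.factorial : ℝ) * v ^ i := by ring
  exact h2.trans (mul_le_mul_of_nonneg_left h1 (Nat.cast_nonneg _))

/-- growth of the power of the logarithm -/
private theorem TaE_pow (j : ℕ) {R x : ℝ} (hR : 1 ≤ R) (hx : R ≤ x) :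
    (Real.log x) ^ j ≤ (j.factorial : ℝ) * (2 + Real.log R) ^ j * (√x / √R) := by
  have hR0 : 0 < R := by linarith
  have hx0 : 0 < x := by linarith
  have hL : 0 ≤ Real.log R := Real.log_nonneg hR
  obtain ⟨v, hv⟩ : ∃ v : ℝ, v = (Real.log x - Real.log R) / 2 := ⟨_, rfl⟩
  have hv0 : 0 ≤ v := by
    have := Real.log_le_log hR0 hx
    rw [hv]
    linarith
  have h1 : Real.log x ≤ (2 + Real.log R) * (1 + v) := by
    have : 0 ≤ Real.log R * v := mul_nonneg hL hv0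
    have h2 : Real.log x = Real.log R + 2 * v := by rw [hv]; ring
    rw [h2]
    nlinarith
  have h3 : Real.exp v = √x / √R := by
    rw [← Real.sqrt_div hx0.le, hv, ← Real.log_div (ne_of_gt hx0) (ne_of_gt hR0), Real.sqrt_eq_rpow,
      Real.rpow_def_of_pos (by positivity)]
    ring_nf
  have hlx : 0 ≤ Real.log x := Real.log_nonneg (by linarith)
  calc (Real.log x) ^ j ≤ ((2 + Real.log R) * (1 + v)) ^ j := pow_le_pow_left₀ hlx h1 j
    _ = (2 + Real.log R) ^ j * (1 + v) ^ j := mul_pow _ _ _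
    _ ≤ (2 + Real.log R) ^ j * ((j.factorial : ℝ) * Real.exp v) :=
        mul_le_mul_of_nonneg_left (TaE_exp j hv0) (by positivity)
    _ = _ := by rw [h3]; ring

private theorem TaE_step (n : ℕ) (hn : 1 ≤ n) :
    √((n : ℝ) + 1) / (n : ℝ) ^ 2 ≤ 8 * (1 / √(n : ℝ) - 1 / √((n : ℝ) + 1)) := by
  have hn' : (1 : ℝ) ≤ n := by exact_mod_cast hn
  obtain ⟨a, ha⟩ : ∃ a, a = √(n : ℝ) := ⟨_, rfl⟩
  obtain ⟨b, hb⟩ : ∃ b, b = √((n : ℝ) + 1) := ⟨_, rfl⟩
  have ha2 : a ^ 2 = n := by rw [ha, Real.sq_sqrt (by linarith)]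
  have hb2 : b ^ 2 = n + 1 := by rw [hb, Real.sq_sqrt (by linarith)]
  have ha1 : 1 ≤ a := by rw [ha]; exact Real.one_le_sqrt.mpr hn'
  have hb1 : 1 ≤ b := by rw [hb]; exact Real.one_le_sqrt.mpr (by linarith)
  rw [← ha, ← hb, ← ha2, div_sub_div _ _ (by positivity) (by positivity), mul_div_assoc',
    div_le_div_iff₀ (by positivity) (by positivity)]
  have hd : (b - a) * (a + b) = 1 := by nlinarith
  have hd0 : 0 ≤ b - a := by
    by_contra h
    push Not at h
    nlinarith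
  have h1 : b ^ 2 ≤ 2 * a ^ 2 := by rw [ha2, hb2]; linarith
  have h2 : b ≤ 3 / 2 * a := by
    apply le_of_sq_le_sq _ (by positivity)
    nlinarith
  have h3 : b ^ 2 * (a + b) ≤ 8 * a ^ 3 := by
    have h4 : b ^ 2 * (a + b) ≤ (2 * a ^ 2) * (5 / 2 * a) :=
      mul_le_mul h1 (by linarith) (by positivity) (by positivity)
    have h5 : 0 ≤ a ^ 3 := by positivity
    nlinarith
  have h6 : b ^ 2 ≤ 8 * a ^ 3 * (b - a) := by
    calc b ^ 2 = (b ^ 2 * (a + b)) * (b - a) := by linear_combination (-b ^ 2) * hd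
      _ ≤ 8 * a ^ 3 * (b - a) := mul_le_mul_of_nonneg_right h3 hd0
  calc b * (a * b) = b ^ 2 * a := by ring
    _ ≤ (8 * a ^ 3 * (b - a)) * a := mul_le_mul_of_nonneg_right h6 (by positivity)
    _ = 8 * (1 * b - a * 1) * (a ^ 2) ^ 2 := by ring

theorem tTaE : TaEStmt := by
  intro j N M hN
  have hN' : (1 : ℝ) ≤ N := by exact_mod_cast hN
  obtain ⟨R, hR⟩ : ∃ R : ℝ, R = (N : ℝ) + 1 := ⟨_, rfl⟩
  have hL : 0 ≤ Real.log R := by rw [hR]; exact Real.log_nonneg (by linarith)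
  obtain ⟨K, hK⟩ : ∃ K : ℝ, K = (j.factorial : ℝ) * (2 + Real.log R) ^ j := ⟨_, rfl⟩
  have hK0 : 0 ≤ K := by rw [hK]; positivity
  have hR0 : 0 < √R := Real.sqrt_pos.mpr (by rw [hR]; linarith)
  have hsum : ∀ k : ℕ, ∑ n ∈ Ico N (N + k), (Real.log ((n : ℝ) + 1)) ^ j / (n : ℝ) ^ 2 ≤
      K / √R * (8 * (1 / √(N : ℝ) - 1 / √(((N + k : ℕ) : ℝ)))) := by
    intro k
    induction k with
    | zero => simp
    | succ k ih =>
      rw [← add_assoc, Finset.sum_Ico_succ_top (by omega)]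
      have hk : (N : ℝ) ≤ ((N + k : ℕ) : ℝ) := by push_cast; linarith [Nat.cast_nonneg (α := ℝ) k]
      have h1 := TaE_step (N + k) (by omega)
      have h2 := TaE_pow j (R := R) (x := ((N + k : ℕ) : ℝ) + 1) (by rw [hR]; linarith)
        (by rw [hR]; linarith)
      have h3 : (Real.log (((N + k : ℕ) : ℝ) + 1)) ^ j / ((N + k : ℕ) : ℝ) ^ 2 ≤
          K / √R * (√(((N + k : ℕ) : ℝ) + 1) / ((N + k : ℕ) : ℝ) ^ 2) := by
        have h4 : K / √R * (√(((N + k : ℕ) : ℝ) + 1) / ((N + k : ℕ) : ℝ) ^ 2) =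
            (K * (√(((N + k : ℕ) : ℝ) + 1) / √R)) / ((N + k : ℕ) : ℝ) ^ 2 := by ring
        rw [h4]
        apply div_le_div_of_nonneg_right _ (by positivity)
        rw [hK]
        exact h2
      have h5 : K / √R * (√(((N + k : ℕ) : ℝ) + 1) / ((N + k : ℕ) : ℝ) ^ 2) ≤
          K / √R * (8 * (1 / √(((N + k : ℕ) : ℝ)) - 1 / √(((N + k : ℕ) : ℝ) + 1))) :=
        mul_le_mul_of_nonneg_left h1 (by positivity)
      have h6 : (((N + k + 1 : ℕ) : ℝ)) = ((N + k : ℕ) : ℝ) + 1 := by push_cast; ring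
      rw [h6]
      calc _ ≤ K / √R * (8 * (1 / √(N : ℝ) - 1 / √(((N + k : ℕ) : ℝ)))) +
          K / √R * (8 * (1 / √(((N + k : ℕ) : ℝ)) - 1 / √(((N + k : ℕ) : ℝ) + 1))) :=
            add_le_add ih (h3.trans h5)
        _ = _ := by ring
  have hmain : ∑ n ∈ Icc N M, (Real.log ((n : ℝ) + 1)) ^ j / (n : ℝ) ^ 2 ≤
      K / √R * (8 * (1 / √(N : ℝ))) := by
    rcases le_or_gt N (M + 1) with h | h
    · obtain ⟨k, hk⟩ := Nat.exists_eq_add_of_le h
      have h1 : Icc N M = Ico N (N + k) := by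
        ext n
        rw [Finset.mem_Icc, Finset.mem_Ico]
        omega
      rw [h1]
      refine (hsum k).trans ?_
      apply mul_le_mul_of_nonneg_left _ (by positivity)
      have : 0 ≤ 1 / √(((N + k : ℕ) : ℝ)) := by positivity
      linarith
    · have h1 : Icc N M = ∅ := Finset.Icc_eq_empty (by omega)
      rw [h1, Finset.sum_empty]
      positivity
  refine hmain.trans ?_
  have hN0 : 0 < √(N : ℝ) := Real.sqrt_pos.mpr (by linarith)
  have h7 : √(N : ℝ) ≤ √R := Real.sqrt_le_sqrt (by rw [hR]; linarith)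
  have h8 : (N : ℝ) ≤ √R * √(N : ℝ) := by
    calc (N : ℝ) = √(N : ℝ) * √(N : ℝ) := (Real.mul_self_sqrt (by linarith)).symm
      _ ≤ √R * √(N : ℝ) := mul_le_mul_of_nonneg_right h7 hN0.le
  have h9 : K / √R * (8 * (1 / √(N : ℝ))) = 8 * K / (√R * √(N : ℝ)) := by
    field_simp
  have h10 : 8 * K / (√R * √(N : ℝ)) ≤ 8 * K / N :=
    div_le_div_of_nonneg_left (by positivity) (by linarith) h8
  have h11 : 8 * K / (N : ℝ) ≤ 16 * K / N :=
    div_le_div_of_nonneg_right (by linarith) (by linarith)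
  rw [h9, ← hR]
  refine h10.trans (h11.trans (le_of_eq ?_))
  rw [hK]
  ring

end Pool.Agent.Lib.MP_9f2731_nt.GP.Ap
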