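import Pool.Agent.Lib.MP_9f2731_nt.GP.Ap.Spec
import Pool.Agent.Lib.BV.Uns

/-!
MP_9f2731_nt, GP, Ap, module UnE: from the smoothed sums to the sums, explicit in i.
-/

namespace Pool.Agent.Lib.MP_9f2731_nt.GP.Ap

open Finset

theorem tUnE : UnEStmt := by
  intro i c K hK hc hW u hu
  have hlogu : 0 ≤ Real.log u := Real.log_nonneg hu
  set L : ℝ := 1 + Real.log u with hL
  have hL1 : 1 ≤ L := by linarith
  have hLi : 1 ≤ L ^ i := one_le_pow₀ hL1
  set δ : ℝ := (L ^ i)⁻¹ with hδ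
  have hδ0 : 0 < δ := by positivity
  have hδ1 : δ ≤ 1 := inv_le_one_of_one_le₀ hLi
  have hδL : δ * L ^ i = 1 := inv_mul_cancel₀ (by positivity)
  set v : ℝ := u * (1 + δ) with hv
  have huv : u ≤ v := by rw [hv]; nlinarith
  have hv2 : v ≤ 2 * u := by rw [hv]; nlinarith
  have hv1 : 1 ≤ v := hu.trans huv
  have hvu : v / u = 1 + δ := by rw [hv]; field_simp
  have hlogδ : δ / 2 ≤ Real.log (1 + δ) := BV.Uns_log_lower hδ0 hδ1
  have hlogpos : 0 < Real.log (1 + δ) := by linarith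
  have hdiff := BV.Uns_diff c hu huv
  have htail := BV.Uns_tail c hc hu huv
  rw [hvu] at hdiff htail
  have hlogv : 1 + Real.log v ≤ 2 * L := by
    have h1 : Real.log v ≤ Real.log (2 * u) := Real.log_le_log (by linarith) hv2
    have h2 : Real.log (2 * u) = Real.log 2 + Real.log u :=
      Real.log_mul (by norm_num) (ne_of_gt (by linarith))
    rw [h2] at h1
    have := Real.log_two_lt_d9
    linarith
  have hlogv0 : 0 ≤ Real.log v := Real.log_nonneg hv1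
  have hpow : (1 + Real.log v) ^ (2 * i) ≤ 4 ^ i * (L ^ i * L ^ i) := by
    calc (1 + Real.log v) ^ (2 * i) ≤ (2 * L) ^ (2 * i) := pow_le_pow_left₀ (by linarith) hlogv _
      _ = 4 ^ i * (L ^ i * L ^ i) := by
        rw [mul_pow, pow_mul, pow_mul, ← mul_pow L L i, pow_two L]
        norm_num
  have hexp : L ^ i ≤ i.factorial * Real.exp 1 * u := by
    have h1 := Real.pow_div_factorial_le_exp (x := L) (by linarith) i
    rw [div_le_iff₀ (by positivity)] at h1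
    rw [hL, Real.exp_add, Real.exp_log (by linarith)] at h1
    calc L ^ i ≤ Real.exp 1 * u * i.factorial := h1
      _ = i.factorial * Real.exp 1 * u := by ring
  -- the main inequality
  have h1 : ‖∑ n ∈ Icc 1 ⌊u⌋₊, c n‖ * Real.log (1 + δ) ≤
      K * v + K * u + (v - u + 1) * ((1 + Real.log v) ^ (2 * i) * Real.log (1 + δ)) := by
    have h2 : ‖∑ n ∈ Icc 1 ⌊u⌋₊, c n‖ * Real.log (1 + δ) =
        ‖(∑ n ∈ Icc 1 ⌊u⌋₊, c n) * ((Real.log (1 + δ) : ℝ) : ℂ)‖ := by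
      rw [norm_mul, Complex.norm_real, Real.norm_eq_abs, abs_of_pos hlogpos]
    have h3 : (∑ n ∈ Icc 1 ⌊u⌋₊, c n) * ((Real.log (1 + δ) : ℝ) : ℂ) =
        (∑ n ∈ Icc 1 ⌊v⌋₊, c n * ((Real.log (v / n) : ℝ) : ℂ) -
          ∑ n ∈ Icc 1 ⌊u⌋₊, c n * ((Real.log (u / n) : ℝ) : ℂ)) -
        ∑ n ∈ Ioc ⌊u⌋₊ ⌊v⌋₊, c n * ((Real.log (v / n) : ℝ) : ℂ) := by
      rw [hdiff]; ring
    rw [h2, h3]
    have h4 := norm_sub_le (∑ n ∈ Icc 1 ⌊v⌋₊, c n * ((Real.log (v / n) : ℝ) : ℂ) -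
          ∑ n ∈ Icc 1 ⌊u⌋₊, c n * ((Real.log (u / n) : ℝ) : ℂ))
        (∑ n ∈ Ioc ⌊u⌋₊ ⌊v⌋₊, c n * ((Real.log (v / n) : ℝ) : ℂ))
    have h5 := norm_sub_le (∑ n ∈ Icc 1 ⌊v⌋₊, c n * ((Real.log (v / n) : ℝ) : ℂ))
        (∑ n ∈ Icc 1 ⌊u⌋₊, c n * ((Real.log (u / n) : ℝ) : ℂ))
    have h6 := hW v hv1
    have h7 := hW u hu
    linarith
  have h2 : v - u = u * δ := by rw [hv]; ring
  -- divide by the logarithm
  have h3 : ‖∑ n ∈ Icc 1 ⌊u⌋₊, c n‖ ≤
      6 * K * u * L ^ i + (u * δ + 1) * (4 ^ i * (L ^ i * L ^ i)) := by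
    by_contra hcon
    rw [not_le] at hcon
    have h4 : (6 * K * u * L ^ i + (u * δ + 1) * (4 ^ i * (L ^ i * L ^ i))) * Real.log (1 + δ) <
        ‖∑ n ∈ Icc 1 ⌊u⌋₊, c n‖ * Real.log (1 + δ) := mul_lt_mul_of_pos_right hcon hlogpos
    have h5 : K * v + K * u ≤ 6 * K * u * L ^ i * Real.log (1 + δ) := by
      have h6 : 6 * K * u * L ^ i * (δ / 2) ≤ 6 * K * u * L ^ i * Real.log (1 + δ) :=
        mul_le_mul_of_nonneg_left hlogδ (by positivity)
      have h7 : 6 * K * u * L ^ i * (δ / 2) = 3 * K * u * (δ * L ^ i) := by ring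
      rw [h7, hδL] at h6
      nlinarith
    have h8 : (v - u + 1) * ((1 + Real.log v) ^ (2 * i) * Real.log (1 + δ)) ≤
        (u * δ + 1) * (4 ^ i * (L ^ i * L ^ i)) * Real.log (1 + δ) := by
      rw [h2]
      have h9 : (1 + Real.log v) ^ (2 * i) * Real.log (1 + δ) ≤
          4 ^ i * (L ^ i * L ^ i) * Real.log (1 + δ) :=
        mul_le_mul_of_nonneg_right hpow hlogpos.le
      calc (u * δ + 1) * ((1 + Real.log v) ^ (2 * i) * Real.log (1 + δ)) ≤
          (u * δ + 1) * (4 ^ i * (L ^ i * L ^ i) * Real.log (1 + δ)) :=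
            mul_le_mul_of_nonneg_left h9 (by positivity)
        _ = _ := by ring
    have h10 : (6 * K * u * L ^ i + (u * δ + 1) * (4 ^ i * (L ^ i * L ^ i))) * Real.log (1 + δ) =
        6 * K * u * L ^ i * Real.log (1 + δ) +
          (u * δ + 1) * (4 ^ i * (L ^ i * L ^ i)) * Real.log (1 + δ) := by ring
    linarith
  have h4 : (u * δ + 1) * (4 ^ i * (L ^ i * L ^ i)) ≤
      4 ^ i * (1 + i.factorial * Real.exp 1) * (u * L ^ i) := by
    have h5 : (u * δ + 1) * (4 ^ i * (L ^ i * L ^ i)) =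
        4 ^ i * (u * (δ * L ^ i) * L ^ i + L ^ i * L ^ i) := by ring
    rw [h5, hδL]
    have h6 : L ^ i * L ^ i ≤ i.factorial * Real.exp 1 * u * L ^ i :=
      mul_le_mul_of_nonneg_right hexp (by positivity)
    have h7 : 4 ^ i * (1 + i.factorial * Real.exp 1) * (u * L ^ i) =
        4 ^ i * (u * 1 * L ^ i + i.factorial * Real.exp 1 * u * L ^ i) := by ring
    rw [h7]
    exact mul_le_mul_of_nonneg_left (by linarith) (by positivity)
  have h5 : 0 ≤ u * L ^ i := by positivity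
  have h6 : (0 : ℝ) ≤ 4 ^ i * (1 + i.factorial * Real.exp 1) := by positivity
  calc ‖∑ n ∈ Icc 1 ⌊u⌋₊, c n‖ ≤ 6 * K * u * L ^ i + (u * δ + 1) * (4 ^ i * (L ^ i * L ^ i)) := h3
    _ ≤ 6 * K * (u * L ^ i) + 4 ^ i * (1 + i.factorial * Real.exp 1) * (u * L ^ i) := by
      have : 6 * K * u * L ^ i = 6 * K * (u * L ^ i) := by ring
      linarith
    _ ≤ 10 * 4 ^ i * (i.factorial : ℝ) * (K + 1) * (u * L ^ i) := by
      have f1 : (1 : ℝ) ≤ i.factorial := by exact_mod_cast Nat.one_le_iff_ne_zero.2 i.factorial_ne_zero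
      have f2 : (1 : ℝ) ≤ 4 ^ i := one_le_pow₀ (by norm_num)
      have f3 : Real.exp 1 ≤ 3 := by
        have := Real.exp_one_lt_d9
        linarith
      have f4 : (1 : ℝ) ≤ 4 ^ i * i.factorial := by nlinarith
      have f5 : 1 + (i.factorial : ℝ) * Real.exp 1 ≤ 4 * i.factorial := by nlinarith
      have f6 : (4 : ℝ) ^ i * (1 + i.factorial * Real.exp 1) ≤ 4 ^ i * (4 * i.factorial) :=
        mul_le_mul_of_nonneg_left f5 (by positivity)
      have f7 : 6 * K ≤ 10 * (4 ^ i * i.factorial) * K := by nlinarith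
      have f8 : 6 * K + 4 ^ i * (1 + i.factorial * Real.exp 1)
          ≤ 10 * 4 ^ i * (i.factorial : ℝ) * (K + 1) := by nlinarith
      have f9 := mul_le_mul_of_nonneg_right f8 h5
      linarith

end Pool.Agent.Lib.MP_9f2731_nt.GP.Ap
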