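import Pool.Agent.Lib.BV.All
import Pool.Agent.Lib.MP_9f2731_nt.GP.Ap.TaE
import Pool.Agent.Lib.MP_9f2731_nt.GP.Ap.GdE
import Pool.Agent.Lib.MP_9f2731_nt.GP.Ap.SeE
import Pool.Agent.Lib.MP_9f2731_nt.GP.Ap.RlC
import Pool.Agent.Lib.MP_9f2731_nt.GP.Ap.LoP
import Pool.Agent.Lib.MP_9f2731_nt.GP.Ap.ReE
import Pool.Agent.Lib.MP_9f2731_nt.GP.Ap.FkP
import Pool.Agent.Lib.MP_9f2731_nt.GP.Ap.UnE
import Pool.Agent.Lib.MP_9f2731_nt.GP.Ap.PaE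
import Pool.Agent.Lib.MP_9f2731_nt.GP.Ap.SwE
import Pool.Agent.Lib.MP_9f2731_nt.GP.Ap.SwP
import Pool.Agent.Lib.MP_9f2731_nt.GP.Ap.ApF
import Pool.Agent.Lib.MP_9f2731_nt.GP.Ap.ApZ

/-!
MP_9f2731_nt, THEOREM GP, chapter Ap (helper3): assembly; aAp proves ApStmt of GP/Defs without hypotheses.
-/

namespace Pool.Agent.Lib.MP_9f2731_nt.GP.Ap

open Pool.Agent.Lib.BV

theorem aTaE : TaEStmt := tTaE
theorem aGdE : GdEStmt := tGdE
theorem aSeE : SeEStmt := tSeE aTaE aGdE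
theorem aRlC : RlCStmt := tRlC
theorem aLoP : LoPStmt := tLoP aLo1 aLoF aRlC
theorem aReE : ReEStmt := tReE aIdr
theorem aFkP : FkPStmt := tFkP aSeE aChb aLoP aReE
theorem aUnE : UnEStmt := tUnE
theorem aPaE : PaEStmt := tPaE
theorem aSwE : SwEStmt := tSwE aFkP aSmb aPer aUnE aPaE aPps
theorem aSwP : SwPStmt := tSwP aSwE
theorem aApF : ApFStmt := tApF aSwP aPnt
/-- primes congruent to 1 modulo smooth moduli: the interface ApStmt of GP/Defs -/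
theorem aAp : Pool.Agent.Lib.MP_9f2731_nt.GP.ApStmt := tApZ aApF

end Pool.Agent.Lib.MP_9f2731_nt.GP.Ap
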