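import Pool.Agent.Lib.BV.SpecW
import Pool.Agent.Lib.MP_9f2731_nt.GP.Defs

/-!
MP_9f2731_nt, THEOREM GP (helper78, note 2851), chapter Ap (helper3): primes = 1 modulo q for q <= exp((log x)^(1/80))
composed of a fixed finite set of primes.  All primitive characters mod q satisfy a lower bound without a Siegel
factor (the real ones have bounded conductor); the method of Lib/BV part H with explicit dependence on the number j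
of logarithms gives the error x exp(-(log x)^(1/60)).

RULES. Module X: file Pool/Agent/Lib/MP_9f2731_nt/GP/Ap/X.lean, first line `import Pool.Agent.Lib.MP_9f2731_nt.GP.Ap.Spec` (plus proved library files
named in the docstring, e.g. Pool.Agent.Lib.BV.All: aIdr, aLo1, aLoF, aPer, aSmb, aPps, aPnt, aChb), then
`namespace Pool.Agent.Lib.MP_9f2731_nt.GP.Ap`, `open Finset Pool.Agent.Lib.BV`, private lemmas with names starting with X_, final theorem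
`theorem tX (h1 : AStmt) ... : XStmt`; the statements listed under Uses are hypotheses of your theorem, in this order.
The docstring contains a complete proof.
-/

namespace Pool.Agent.Lib.MP_9f2731_nt.GP.Ap

open Finset Pool.Agent.Lib.BV

/-- all prime factors of q belong to S -/
def SmF (S : Finset ℕ) (q : ℕ) : Prop := ∀ p : ℕ, p.Prime → p ∣ q → p ∈ S

/-! ### Upper bounds for the Dirichlet series, explicit in j -/

/-- Module TaE (theorem tTaE). Uses: nothing. (Compare Lib/BV/Tai.lean.)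
Proof. With k = n + 1 ≥ N + 1 =: R, 1/n^2 ≤ 4/k^2. log k = log R + log(k/R) and (log(k/R))^i ≤ i! 2^i (k/R)^(1/2)
(v^i/i! ≤ e^v for v = log(k/R)/2), so (log k)^j = ∑_i C(j,i) (log R)^(j-i) (log(k/R))^i ≤ j! (k/R)^(1/2) ∑_i (log R)^(j-i) 2^i ≤
j! (2 + log R)^j (k/R)^(1/2) (C(j,i) i! ≤ j!; ∑_i a^(j-i) b^i ≤ (a+b)^j). ∑_{k ≥ R} k^(-3/2) ≤ 4 R^(-1/2) (see Lib/BV/Tai.lean).
Total ≤ 4 j! (2 + log R)^j R^(-1/2) 4 R^(-1/2) = 16 j! (2 + log R)^j/R. -/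
def TaEStmt : Prop :=
  ∀ j N M : ℕ, 1 ≤ N → ∑ n ∈ Icc N M, (Real.log ((n : ℝ) + 1)) ^ j / (n : ℝ) ^ 2 ≤
    16 * (j.factorial : ℝ) * ((2 + Real.log ((N : ℝ) + 1)) ^ j / N)

/-- Module GdE (theorem tGdE). Uses: nothing. (Compare Lib/BV/Gdi.lean.)
Proof. gg j s has derivative (j (log v)^(j-1) - s (log v)^j) v^(-s-1) at v > 0; for n ≤ v ≤ n+1 its norm is at most
(j (log(n+1))^(j-1) + |s| (log(n+1))^j) n^(-2), |s| ≤ |t| + 2, (log(n+1))^(j-1) ≤ (3/2) (log(n+1))^j (log 2 ≥ 2/3), and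
(3/2) j + |t| + 2 ≤ 2 (j+1) (|t| + 2). Mean value inequality on [n, u]. -/
def GdEStmt : Prop :=
  ∀ (j n : ℕ) (u : ℝ) (s : ℂ), 1 ≤ n → (n : ℝ) ≤ u → u ≤ (n : ℝ) + 1 → 1 ≤ s.re → s.re ≤ 2 →
    ‖gg j s u - gg j s n‖ ≤
      2 * ((j : ℝ) + 1) * ((|s.im| + 2) * (Real.log ((n : ℝ) + 1)) ^ j / (n : ℝ) ^ 2)

/-- Module SeE (theorem tSeE). Uses: TaE, GdE. (Compare Lib/BV/Ser.lean, which can be copied.)
Proof. X = Q (|t| + 2) ≥ 4, N = ⌈X⌉, ell = log X ≥ log 4 > 1.38. Head: ∑_{n ≤ N} (log n)^j/n ≤ (log N)^j (1 + log N) ≤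
(2 ell)^j 3 ell (N ≤ X + 1 ≤ X^2, so log N ≤ 2 ell, and 1 ≤ ell). Tail: summation by parts as in Ser:
norm ≤ Q (|g(M)| + |g(N+1)| + ∑_{n=N+1}^{M-1} |g(n+1) - g(n)|), g = gg j s, |g(n)| ≤ (log n)^j/n ≤ j! (2 + log N)^j/N for n ≥ N (as in
TaE: (log n)^j ≤ j! (2 + log N)^j (n/N)^(1/2)), and the sum is ≤ 2 (j+1) (|t|+2) 16 j! (2 + log(N+2))^j/(N+1) (GdE, TaE).
Q (|t|+2) ≤ N, so the tail is ≤ (2 + 32 (j+1)) j! (2 + log(N+2))^j ≤ 34 (j+1) j! (3 ell)^j ≤ 34 j! (6 ell)^j, because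
N + 2 ≤ X + 3 ≤ 2X, 2 + log(2X) ≤ 2.7 + ell ≤ 3 ell, j + 1 ≤ 2^j. Let M tend to infinity. Total ≤ j! (40 ell)^(j+1). -/
def SeEStmt : Prop :=
  ∀ (j : ℕ) (f : ℕ → ℂ) (Q : ℝ) (s : ℂ), 2 ≤ Q → BPS f Q → 1 < s.re → s.re ≤ 2 →
    ‖DS f j s‖ ≤ (j.factorial : ℝ) * (40 * ell Q s.im) ^ (j + 1)

/-! ### Lower bound -/

/-- Module RlC (theorem tRlC; conductor of a primitive real character). Uses: nothing.
Proof. (1) Let p be an odd prime with p^2 ∣ q. q' = q/p is divisible by p. Let u be a unit mod q with u ≡ 1 mod q':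
u = 1 + q' k; u^p ≡ 1 mod q (binomial theorem: p q' k ≡ 0 mod q, and q'^2 ≡ 0 mod q as q = p q' divides q'^2). χ(u)^p = 1 and
χ(u)^2 = 1 give χ(u) = 1 (p odd). So χ factors through q' (DirichletCharacter.factorsThrough_iff_ker_unitsMap:
the kernel of the units map to ZMod q' is contained in the kernel of χ), and the conductor divides q' < q
(conductor_dvd_of_mem_conductorSet or conductor_le...), contradicting primitivity. (2) Let 16 ∣ q, q' = q/2, u ≡ 1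
mod q', u ≠ 1: u = 1 + q/2 = (1 + q/4)^2 mod q (q^2/16 ≡ 0 mod q), and 1 + q/4 is a unit mod q (its square is one), so
χ(u) = χ(1 + q/4)^2 = 1 and χ factors through q/2, contradiction. So q divides 8 ∏ p over its prime factors: for odd p the
exponent of p in q is ≤ 1, and the exponent of 2 is ≤ 3. -/
def RlCStmt : Prop :=
  ∀ (q : ℕ) (χ : DirichletCharacter ℂ q), 1 ≤ q → χ.IsPrimitive → χ ^ 2 = 1 →
    q ≤ 8 * ∏ p ∈ q.primeFactors, p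

/-- Module LoP (theorem tLoP). Uses: Lo1, LoF, RlC. (Lo1Stmt, LoFStmt of Lib/BV; proved: aLo1, aLoF in Lib/BV/All.lean.)
Proof. χ^2 ≠ 1: Lo1, ell ≥ 1, so c1 ≤ ‖DS‖ ell^7 ≤ ‖DS‖ ell^9. χ^2 = 1: RlC: q ≤ Q_S := 8 ∏_{p ∈ S} max 1 p (the prime factors
of q form a subset of S), and LoF with ε = 1: c2 ≤ ‖DS‖ q ell^9 ≤ ‖DS‖ Q_S ell^9. c = min c1 (c2/Q_S). -/
def LoPStmt : Prop :=
  ∀ S : Finset ℕ, ∃ c : ℝ, 0 < c ∧ ∀ (q : ℕ) (χ : DirichletCharacter ℂ q) (s : ℂ), 2 ≤ q → SmF S q →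
    χ.IsPrimitive → 1 < s.re → s.re ≤ 2 → c ≤ ‖DS (chf χ) 0 s‖ * (ell q s.im) ^ 9

/-! ### Logarithmic derivatives -/

/-- Module ReE (theorem tReE). Uses: Idr (IdrStmt of Lib/BV, proved: aIdr). (Compare Lib/BV/Rec.lean.)
Proof. Strong induction on j: ‖LS i‖ ≤ i! (4V)^(i+1) for i < j. By Idr, LS j D_0 = D_(j+1) - ∑_{i<j} C(j,i) LS i D_(j-i), so after
division by |D_0| (≠ 0: DirichletCharacter.LSeries_ne_zero_of_one_lt_re)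
‖LS j‖ ≤ (j+1)! V^(j+1) + ∑_{i<j} C(j,i) i! (4V)^(i+1) (j-i)! V^(j-i) = j! V^(j+1) ((j+1) + ∑_{i<j} 4^(i+1)) ≤ j! V^(j+1) 4^(j+1),
because ∑_{i<j} 4^(i+1) ≤ 4^(j+1)/3 and j + 1 ≤ (2/3) 4^(j+1). -/
def ReEStmt : Prop :=
  ∀ (j q : ℕ) (χ : DirichletCharacter ℂ q) (s : ℂ) (V : ℝ), 1 ≤ q → 1 < s.re → 0 ≤ V →
    (∀ m : ℕ, 1 ≤ m → m ≤ j + 1 →
      ‖DS (chf χ) m s‖ ≤ (m.factorial : ℝ) * V ^ m * ‖DS (chf χ) 0 s‖) →
    ‖LS (chf χ) j s‖ ≤ (j.factorial : ℝ) * (4 * V) ^ (j + 1)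

/-- Module FkP (theorem tFkP). Uses: SeE, Chb, LoP, ReE. (ChbStmt of Lib/BV, proved: aChb.)
Proof. c from LoP, c' = min c 1. χ ≠ 1 (primitive, q ≥ 2). For m ≥ 1: ‖DS m‖ ≤ m! (40 ell)^(m+1) ≤ m! (40 ell)^(m+1) (ell^9/c') ‖DS 0‖ ≤
m! ((1600/c') ell^11)^m ‖DS 0‖, because 40^(m+1) ≤ 1600^m, 1/c' ≤ (1/c')^m, m + 10 ≤ 11 m, ell ≥ 1. ReE with
V = (1600/c') ell^11. B = 6400/c'. -/
def FkPStmt : Prop :=
  ∀ S : Finset ℕ, ∃ B : ℝ, 1 ≤ B ∧ ∀ (j q : ℕ) (χ : DirichletCharacter ℂ q) (s : ℂ), 2 ≤ q → SmF S q →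
    χ.IsPrimitive → 1 < s.re → s.re ≤ 2 →
    ‖LS (chf χ) j s‖ ≤ (j.factorial : ℝ) * (B * (ell q s.im) ^ 11) ^ (j + 1)

/-! ### From series to sums, explicit in i -/

/-- Module UnE (theorem tUnE). Uses: nothing. (Compare Lib/BV/Uns.lean.)
Proof. W(y) = ∑_{n ≤ y} c_n log(y/n), δ = (1 + log u)^(-i) ∈ (0,1], T = ∑_{n ≤ u} c_n:
T log(1+δ) = W(u(1+δ)) - W(u) - ∑_{u < n ≤ u(1+δ)} c_n log(u(1+δ)/n). |W(u(1+δ))| + |W(u)| ≤ 3 K u. The last sum: at most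
u δ + 1 terms, each ≤ (1 + log(2u))^(2i) log(1+δ), 1 + log(2u) ≤ 2 (1 + log u). log(1+δ) ≥ δ/2. So
|T| ≤ 6 K u (1 + log u)^i + 4^i (u (1 + log u)^i + (1 + log u)^(2i)), and (1 + log u)^i ≤ i! e^(1 + log u) ≤ 3 i! u. Total
≤ (6 K + 4^i (1 + 3 i!)) u (1 + log u)^i ≤ 10 4^i i! (K + 1) u (1 + log u)^i. -/
def UnEStmt : Prop :=
  ∀ (i : ℕ) (c : ℕ → ℂ) (K : ℝ), 0 ≤ K → (∀ n : ℕ, ‖c n‖ ≤ (1 + Real.log n) ^ (2 * i)) →
    (∀ y : ℝ, 1 ≤ y → ‖∑ n ∈ Icc 1 ⌊y⌋₊, c n * ((Real.log (y / n) : ℝ) : ℂ)‖ ≤ K * y) →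
    ∀ u : ℝ, 1 ≤ u → ‖∑ n ∈ Icc 1 ⌊u⌋₊, c n‖ ≤
      10 * 4 ^ i * (i.factorial : ℝ) * (K + 1) * (u * (1 + Real.log u) ^ i)

/-- Module PaE (theorem tPaE). Uses: nothing. (Compare Lib/BV/Pas.lean.)
Proof. Summation by parts with the decreasing positive weights w(n) = (log n)^(-2i), n > √x: the norm of the left
side is ≤ 2 w(⌊√x⌋+1) max_{u ≤ x} |T(u)| ≤ 2 (log √x)^(-2i) K x (1 + log x)^i ≤ 2 4^i 2^i K x (log x)^(-i) (log x ≥ 1). -/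
def PaEStmt : Prop :=
  ∀ (i : ℕ) (c : ℕ → ℂ) (K : ℝ), 1 ≤ i → 0 ≤ K →
    (∀ u : ℝ, 1 ≤ u → ‖∑ n ∈ Icc 1 ⌊u⌋₊, c n‖ ≤ K * (u * (1 + Real.log u) ^ i)) →
    ∀ x : ℝ, 4 ≤ x → ‖∑ n ∈ Ioc ⌊Real.sqrt x⌋₊ ⌊x⌋₊, c n / ((Real.log n : ℝ) : ℂ) ^ (2 * i)‖ ≤
      4 * 8 ^ i * K * (x / (Real.log x) ^ i)

/-- Module SwE (theorem tSwE; explicit bound for one character). Uses: FkP, Smb, Per, UnE, PaE, Pps.
(SmbStmt, PerStmt, PpsStmt of Lib/BV, proved: aSmb, aPer, aPps. Compare Lib/BV/Sw.lean and Lib/BV/Prs.lean.)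
Proof. i ≥ 1, c n = Λ(n) χ(n) (log n)^(2i-1), so LSeries c = LS (chf χ) (2i-1), ‖c n‖ ≤ (1 + log n)^(2i), summable by Smb.
FkP: ‖LSeries c s‖ ≤ (2i-1)! (B ell^11)^(2i). ell = log q + log(|t|+2) ≤ (1 + log q)(1 + log(|t|+2)), and with k = 22 i
(1 + log v)^k ≤ k! 2^k e^((1 + log v)/2) ≤ 2 (2k)^k v^(1/2) for v ≥ 1. So ‖LSeries c s‖ ≤ K (|t|+2)^(1/2) with
K = 2 (2i)^(2i) B^(2i) (44 i)^(22 i) (1 + log q)^(22 i) ≥ 1. Per (constant C1): smoothed sums ≤ C1 K y. UnE, PaE: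
‖∑_{√x < n ≤ x} Λ(n) χ(n)/log n‖ ≤ 4 8^i 10 4^i i! (C1 K + 1) x/(log x)^i (i! ≤ i^i). Total power of i: i + 2i + 22i = 25 i. So
this is ≤ D0 (D i^25 (1 + log q)^22/log x)^i x with constants D0, D depending on S only (D = 32 4 44^22 B^2,
D0 = 80 (C1 + 1)). Pps: the sum over the primes p ≤ x differs from it by at most C √x log x. -/
def SwEStmt : Prop :=
  ∀ S : Finset ℕ, ∃ D : ℝ, 1 ≤ D ∧ ∀ (i q : ℕ) (χ : DirichletCharacter ℂ q) (x : ℝ), 1 ≤ i → 2 ≤ q →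
    SmF S q → χ.IsPrimitive → 4 ≤ x →
    ‖∑ p ∈ (Icc 1 ⌊x⌋₊).filter Nat.Prime, χ (p : ZMod q)‖ ≤
      D * (x * (D * (i : ℝ) ^ 25 * (1 + Real.log q) ^ 22 / Real.log x) ^ i + Real.sqrt x * Real.log x)

/-- Module SwP (theorem tSwP). Uses: SwE.
Proof. L = log x large, i = ⌈3 L^(1/60)⌉ ≤ 4 L^(1/60), 1 + log q ≤ 2 L^(1/80): D i^25 (1 + log q)^22/L ≤
D 4^25 2^22 L^(25/60 + 22/80 - 1) ≤ D' L^(-3/10) ≤ e^(-1) for L large, so its i-th power is ≤ exp(-3 L^(1/60)), and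
D exp(-3 L^(1/60)) + D L exp(-L/2) ≤ exp(-L^(1/60)) for L large. -/
def SwPStmt : Prop :=
  ∀ S : Finset ℕ, ∃ x0 : ℝ, ∀ (x : ℝ) (q : ℕ) (χ : DirichletCharacter ℂ q), x0 ≤ x → 2 ≤ q → SmF S q →
    χ.IsPrimitive → Real.log q ≤ (Real.log x) ^ ((1 : ℝ) / 80) →
    ‖∑ p ∈ (Icc 1 ⌊x⌋₊).filter Nat.Prime, χ (p : ZMod q)‖ ≤
      x * Real.exp (-(Real.log x) ^ ((1 : ℝ) / 60))

/-- Module ApF (theorem tApF; the result of the chapter). Uses: SwP, Pnt. (PntStmt of Lib/BV/SpecD, proved: aPnt.)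
Proof. L = log x. Orthogonality (DirichletCharacter.sum_char_inv_mul_char_eq with a = 1, as in Lib/BV/Spl.lean): the number of
primes p ≤ x, p ≡ 1 mod q, is (1/φ(q)) ∑_χ ∑_{p ≤ x} χ(p). χ = 1: the inner sum is npr x - #{p ∣ q, p ≤ x} ≥ npr x - 2 log q (the
number of prime factors of q is ≤ 2 log q: 2^ω ≤ q). χ ≠ 1: let χ1 mod q1 be its primitive character, q1 ∣ q, q1 ≥ 2 (the
conductor is not 1), SmF S q1, log q1 ≤ log q; χ(p) = χ1(p) unless p ∣ q (then χ(p) = 0, |χ1(p)| ≤ 1), so by SwP the inner sum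
is ≤ x exp(-L^(1/60)) + 2 log q. There are φ(q) ≤ exp(L^(1/80)) characters. So the number is at least
(1/φ(q)) (npr x - 2 log q - φ(q) (x exp(-L^(1/60)) + 2 log q)), and by Pnt (A = 2) npr x ≥ li x - C x/L^2 ≥ (x - 2)/L - C x/L^2
(li x = ∫_2^x dt/log t ≥ (x-2)/log x). φ(q) (x exp(-L^(1/60)) + 2 log q) ≤ x/L^2 for x large (exp(L^(1/80) - L^(1/60)) ≤ L^(-2)/2).
Total ≥ (1/φ(q)) x/(2L) for x large. q = 1: the condition p ≡ 1 mod 1 is empty, the same computation. -/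
def ApFStmt : Prop :=
  ∀ S : Finset ℕ, ∃ x0 : ℝ, ∀ (x : ℝ) (q : ℕ), x0 ≤ x → 1 ≤ q → SmF S q →
    Real.log q ≤ (Real.log x) ^ ((1 : ℝ) / 80) →
    x / (2 * (q.totient : ℝ) * Real.log x) ≤
      (((Icc 1 ⌊x⌋₊).filter (fun p => p.Prime ∧ p ≡ 1 [MOD q])).card : ℝ)

/-- Module ApZ (theorem tApZ (h : ApFStmt) : Pool.Agent.Lib.MP_9f2731_nt.GP.ApStmt; the interface of GP/Defs). Uses: ApF.
Proof. ε1 = 1/100. Given w, S = the primes ≤ w, W = Wp w = primorial w. For m with GP.Sm w m let q = W m (SmF S q: prime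
divisors of W m are ≤ w, Nat.Prime.dvd_mul and the prime factors of the primorial), x = q X + 1. The map b ↦ q b + 1 is a
bijection from the b ∈ Icc 1 X with q b + 1 prime onto the primes p ≤ x, p ≡ 1 mod q (p = 1 + q b with b ≥ 1 as 1 is not prime;
⌊x⌋ = q X + 1; for q = 1 too - here q ≥ 2 as w ≥ 2). log q ≤ log W + (log X)^(1/100) ≤ (log x)^(1/80) for X large.
ApF: the number is ≥ x/(2 φ(q) log x) ≥ q X/(2 φ(q) log x). q/φ(q) = W/φ(W), because W and W m have the same prime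
factors (Nat.totient_eq_mul_prod_factors or Nat.totient_mul_of_prime_of_dvd...: φ(n) = n ∏_{p ∣ n} (1 - 1/p)), and
log x ≤ log X + log q + 1 ≤ 2 log X for X large. -/
def ApZStmt : Prop := ApFStmt → Pool.Agent.Lib.MP_9f2731_nt.GP.ApStmt

end Pool.Agent.Lib.MP_9f2731_nt.GP.Ap
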