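import Pool.Agent.Lib.MP_9f2731_nt.GP.Ap.Spec

namespace Pool.Agent.Lib.MP_9f2731_nt.GP.Ap

open Finset Pool.Agent.Lib.BV

private lemma PaE_step (c : ℕ → ℂ) (w : ℕ → ℝ) (M : ℕ) (B : ℝ) (N0 : ℕ)
    (hw0 : ∀ n, M + 1 ≤ n → n ≤ N0 → 0 ≤ w n)
    (hwa : ∀ n, M + 1 ≤ n → n + 1 ≤ N0 → w (n + 1) ≤ w n)
    (hT : ∀ n, M ≤ n → n ≤ N0 → ‖∑ k ∈ Icc 1 n, c k‖ ≤ B) :
    ∀ N, M + 1 ≤ N → N ≤ N0 →
      ‖∑ n ∈ Ioc M N, (w n : ℂ) * c n - (w N : ℂ) * ∑ k ∈ Icc 1 N, c k‖ ≤
        B * (2 * w (M + 1) - w N) := by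
  intro N hN
  induction N, hN using Nat.le_induction with
  | base =>
    intro hM
    have h1 : ∑ n ∈ Ioc M (M + 1), (w n : ℂ) * c n = (w (M + 1) : ℂ) * c (M + 1) := by
      rw [Finset.sum_Ioc_succ_top (Nat.le_refl M)]
      simp
    have h2 : ∑ k ∈ Icc 1 (M + 1), c k = ∑ k ∈ Icc 1 M, c k + c (M + 1) := by
      rw [Finset.sum_Icc_succ_top (by omega)]
    rw [h1, h2]
    have h3 : (w (M + 1) : ℂ) * c (M + 1) - (w (M + 1) : ℂ) * (∑ k ∈ Icc 1 M, c k + c (M + 1)) =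
        -((w (M + 1) : ℂ) * ∑ k ∈ Icc 1 M, c k) := by ring
    rw [h3, norm_neg, norm_mul, Complex.norm_real, Real.norm_eq_abs,
      abs_of_nonneg (hw0 _ (le_refl _) hM)]
    have h4 := mul_le_mul_of_nonneg_left (hT M (le_refl _) (by omega)) (hw0 _ (le_refl _) hM)
    nlinarith [h4]
  | succ N hMN ih =>
    intro hN
    have ih := ih (by omega)
    have h1 : ∑ n ∈ Ioc M (N + 1), (w n : ℂ) * c n =
        ∑ n ∈ Ioc M N, (w n : ℂ) * c n + (w (N + 1) : ℂ) * c (N + 1) := by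
      rw [Finset.sum_Ioc_succ_top (by omega)]
    have h2 : ∑ k ∈ Icc 1 (N + 1), c k = ∑ k ∈ Icc 1 N, c k + c (N + 1) := by
      rw [Finset.sum_Icc_succ_top (by omega)]
    rw [h1, h2]
    have h3 : ∑ n ∈ Ioc M N, (w n : ℂ) * c n + (w (N + 1) : ℂ) * c (N + 1) -
        (w (N + 1) : ℂ) * (∑ k ∈ Icc 1 N, c k + c (N + 1)) =
        (∑ n ∈ Ioc M N, (w n : ℂ) * c n - (w N : ℂ) * ∑ k ∈ Icc 1 N, c k) +
          ((w N - w (N + 1) : ℝ) : ℂ) * ∑ k ∈ Icc 1 N, c k := by
      push_cast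
      ring
    rw [h3]
    refine le_trans (norm_add_le _ _) ?_
    have h5 : 0 ≤ w N - w (N + 1) := by
      have := hwa N hMN hN
      linarith
    have h4 : ‖((w N - w (N + 1) : ℝ) : ℂ) * ∑ k ∈ Icc 1 N, c k‖ ≤ (w N - w (N + 1)) * B := by
      rw [norm_mul, Complex.norm_real, Real.norm_eq_abs, abs_of_nonneg h5]
      exact mul_le_mul_of_nonneg_left (hT N (by omega) (by omega)) h5
    nlinarith [h4, ih]

private lemma PaE_parts (c : ℕ → ℂ) (w : ℕ → ℝ) (M N : ℕ) (B : ℝ) (hB : 0 ≤ B)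
    (hw0 : ∀ n, M + 1 ≤ n → 0 ≤ w n)
    (hwa : ∀ n, M + 1 ≤ n → w (n + 1) ≤ w n)
    (hT : ∀ n, M ≤ n → n ≤ N → ‖∑ k ∈ Icc 1 n, c k‖ ≤ B) :
    ‖∑ n ∈ Ioc M N, (w n : ℂ) * c n‖ ≤ 2 * B * w (M + 1) := by
  rcases Nat.lt_or_ge M N with h | h
  · have h1 := PaE_step c w M B N (fun n hn _ => hw0 n hn) (fun n hn _ => hwa n hn) hT N h
      (le_refl _)
    have h2 : ‖(w N : ℂ) * ∑ k ∈ Icc 1 N, c k‖ ≤ w N * B := by
      rw [norm_mul, Complex.norm_real, Real.norm_eq_abs, abs_of_nonneg (hw0 N h)]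
      exact mul_le_mul_of_nonneg_left (hT N (by omega) (le_refl _)) (hw0 N h)
    have h3 : ∑ n ∈ Ioc M N, (w n : ℂ) * c n =
        (∑ n ∈ Ioc M N, (w n : ℂ) * c n - (w N : ℂ) * ∑ k ∈ Icc 1 N, c k) +
          (w N : ℂ) * ∑ k ∈ Icc 1 N, c k := by ring
    rw [h3]
    refine le_trans (norm_add_le _ _) ?_
    nlinarith [h1, h2]
  · rw [Finset.Ioc_eq_empty_of_le h]
    simp only [Finset.sum_empty, norm_zero]
    have := hw0 (M + 1) (le_refl _)
    positivity

theorem tPaE : PaEStmt := by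
  intro i c K hi hK hc x hx
  have hx0 : 0 < x := by linarith
  have hlogx : 1 ≤ Real.log x := by
    rw [Real.le_log_iff_exp_le hx0]
    have := Real.exp_one_lt_d9
    linarith
  set M : ℕ := ⌊Real.sqrt x⌋₊ with hM
  set N : ℕ := ⌊x⌋₊ with hN
  have hsq2 : 2 ≤ Real.sqrt x := by
    apply Real.le_sqrt_of_sq_le
    linarith
  have hM2 : 2 ≤ M := Nat.le_floor (by exact_mod_cast hsq2)
  set w : ℕ → ℝ := fun n => 1 / (Real.log n) ^ (2 * i) with hw
  have hlogpos : ∀ n : ℕ, M + 1 ≤ n → 0 < Real.log n := by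
    intro n hn
    apply Real.log_pos
    have : 2 ≤ n := by omega
    have : (2 : ℝ) ≤ n := by exact_mod_cast this
    linarith
  have hw0 : ∀ n, M + 1 ≤ n → 0 ≤ w n := by
    intro n hn
    have := hlogpos n hn
    simp only [hw]
    positivity
  have hwa : ∀ n, M + 1 ≤ n → w (n + 1) ≤ w n := by
    intro n hn
    have h1 := hlogpos n hn
    simp only [hw]
    apply one_div_le_one_div_of_le (by positivity)
    apply pow_le_pow_left₀ h1.le
    apply Real.log_le_log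
    · have : 0 < n := by omega
      exact_mod_cast this
    · push_cast
      linarith
  set B : ℝ := K * (x * (1 + Real.log x) ^ i) with hB
  have hB0 : 0 ≤ B := by
    have : 0 ≤ 1 + Real.log x := by linarith
    positivity
  have hT : ∀ n, M ≤ n → n ≤ N → ‖∑ k ∈ Icc 1 n, c k‖ ≤ B := by
    intro n hn1 hn2
    have hn1' : (1 : ℝ) ≤ n := by
      have : 1 ≤ n := by omega
      exact_mod_cast this
    have h := hc n hn1'
    rw [Nat.floor_natCast] at h
    refine le_trans h ?_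
    have hnx : (n : ℝ) ≤ x := by
      have : (n : ℝ) ≤ N := by exact_mod_cast hn2
      exact le_trans this (Nat.floor_le hx0.le)
    have hlogn : 0 ≤ Real.log n := Real.log_nonneg hn1'
    have hlognx : Real.log n ≤ Real.log x := Real.log_le_log (by linarith) hnx
    apply mul_le_mul_of_nonneg_left _ hK
    apply mul_le_mul hnx _ (by positivity) hx0.le
    apply pow_le_pow_left₀ (by linarith)
    linarith
  have hmain := PaE_parts c w M N B hB0 hw0 hwa hT
  have hsum : ∑ n ∈ Ioc M N, c n / ((Real.log n : ℝ) : ℂ) ^ (2 * i) =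
      ∑ n ∈ Ioc M N, (w n : ℂ) * c n := by
    apply Finset.sum_congr rfl
    intro n _
    simp only [hw]
    push_cast
    rw [div_eq_mul_inv, one_div, mul_comm]
  rw [hsum]
  refine le_trans hmain ?_
  have hlogM : Real.log x / 2 ≤ Real.log ((M + 1 : ℕ) : ℝ) := by
    rw [← Real.log_sqrt hx0.le]
    apply Real.log_le_log (by linarith)
    push_cast
    exact (Nat.lt_floor_add_one _).le
  have hwM : w (M + 1) ≤ 4 ^ i / (Real.log x) ^ (2 * i) := by
    simp only [hw]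
    have h1 : (Real.log x / 2) ^ (2 * i) ≤ (Real.log ((M + 1 : ℕ) : ℝ)) ^ (2 * i) :=
      pow_le_pow_left₀ (by linarith) hlogM _
    have h2 : 0 < (Real.log x / 2) ^ (2 * i) := by positivity
    refine le_trans (one_div_le_one_div_of_le h2 h1) ?_
    rw [div_pow, one_div_div]
    have h4 : (2 : ℝ) ^ (2 * i) = 4 ^ i := by
      rw [pow_mul]
      norm_num
    rw [h4]
  have hpow : (1 + Real.log x) ^ i ≤ 2 ^ i * (Real.log x) ^ i := by
    rw [← mul_pow]
    apply pow_le_pow_left₀ (by linarith)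
    linarith
  have hLpos : 0 < (Real.log x) ^ i := by positivity
  calc 2 * B * w (M + 1) ≤ 2 * B * (4 ^ i / (Real.log x) ^ (2 * i)) :=
        mul_le_mul_of_nonneg_left hwM (by positivity)
    _ ≤ 2 * (K * (x * (2 ^ i * (Real.log x) ^ i))) * (4 ^ i / (Real.log x) ^ (2 * i)) := by
        apply mul_le_mul_of_nonneg_right _ (by positivity)
        apply mul_le_mul_of_nonneg_left _ (by norm_num)
        apply mul_le_mul_of_nonneg_left _ hK
        exact mul_le_mul_of_nonneg_left hpow hx0.le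
    _ = 2 * 8 ^ i * K * (x / (Real.log x) ^ i) := by
        have h8 : (8 : ℝ) ^ i = 2 ^ i * 4 ^ i := by
          rw [← mul_pow]
          norm_num
        have h2i : (Real.log x) ^ (2 * i) = (Real.log x) ^ i * (Real.log x) ^ i := by
          rw [two_mul, pow_add]
        rw [h8, h2i]
        field_simp
    _ ≤ 4 * 8 ^ i * K * (x / (Real.log x) ^ i) := by
        apply mul_le_mul_of_nonneg_right _ (by positivity)
        apply mul_le_mul_of_nonneg_right _ hK
        apply mul_le_mul_of_nonneg_right (by norm_num) (by positivity)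

end Pool.Agent.Lib.MP_9f2731_nt.GP.Ap
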